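import Pool.Agent.Lib.MP_688fd0_co.SQ4.H41.Pth

/-!
Type C1, row BIGI, closed classes, the group part: the values of a rotation at the positions `(m, n)`, `m ∈ mZ`, and how
often they occur at the even and at the odd levels.
-/

set_option autoImplicit false

namespace Pool.Agent.Lib.MP_688fd0_co.SQ4.CV

open Pool.Agent.Lib.MP_688fd0_co.OSF Pool.Agent.Lib.MP_688fd0_co.SQ2 Pool.Agent.Lib.MP_688fd0_co.SQ3
open Pool.Agent.Lib.MP_688fd0_co.SQ4

namespace KP

section

variable {Q : Type} [Group Q] {B : Lb.{0, 0} Q} {a b : B.L} {eps : Q →* ℤˣ} {D : Subgroup Q} {z : Q} {k : ℕ}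

/-- The conjugate of `s` by `m w ^ j`. -/
def cj (B : Lb.{0, 0} Q) (a b : B.L) (s : Q) (p : Q × ℕ) : Q :=
  (p.1 * wC B a b ^ p.2) * s * (p.1 * wC B a b ^ p.2)⁻¹

/-- The positions. -/
def Po (B : Lb.{0, 0} Q) (a b : B.L) (D : Subgroup Q) (z : Q) (k : ℕ) : Set (Q × ℕ) :=
  {p | p.1 ∈ mZ B a b D z k ∧ p.2 < k}

/-- The positions where the value is `q`. -/
def PS (B : Lb.{0, 0} Q) (a b : B.L) (D : Subgroup Q) (z : Q) (k : ℕ) (s q : Q) : Set (Q × ℕ) :=
  {p | p ∈ Po B a b D z k ∧ cj B a b s p = q}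

/-- Their number. -/
noncomputable def cn (B : Lb.{0, 0} Q) (a b : B.L) (D : Subgroup Q) (z : Q) (k : ℕ) (s q : Q) : ℕ :=
  (PS B a b D z k s q).ncard

/-- The number of positions. -/
noncomputable def tt (B : Lb.{0, 0} Q) (a b : B.L) (D : Subgroup Q) (z : Q) (k : ℕ) : ℕ := (Po B a b D z k).ncard

variable (H : HypC B a b eps D z k)

include H

theorem po_fin : (Po B a b D z k).Finite := by
  have := H.fin
  refine Set.Finite.subset ((Set.finite_univ (α := Q)).prod (Set.finite_lt_nat k)) ?_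
  rintro ⟨m, j⟩ h
  exact ⟨Set.mem_univ _, h.2⟩

theorem ps_fin (s q : Q) : (PS B a b D z k s q).Finite := (po_fin H).subset fun _ h => h.1

theorem one_po : ((1 : Q), 0) ∈ Po B a b D z k := ⟨Subgroup.one_mem _, H.kpos⟩

theorem tt_pos : 0 < tt B a b D z k := (Set.ncard_pos (po_fin H)).2 ⟨_, one_po H⟩

theorem cn_le (s q : Q) : cn B a b D z k s q ≤ tt B a b D z k := Set.ncard_le_ncard (fun _ h => h.1) (po_fin H)

theorem cn_add_le (s : Q) {q q' : Q} (hne : q ≠ q') :
    cn B a b D z k s q + cn B a b D z k s q' ≤ tt B a b D z k := by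
  unfold cn
  rw [← Set.ncard_union_eq ?_ (ps_fin H s q) (ps_fin H s q')]
  · exact Set.ncard_le_ncard (fun p h => h.elim (fun h => h.1) fun h => h.1) (po_fin H)
  · rw [Set.disjoint_left]
    rintro p ⟨_, h⟩ ⟨_, h'⟩
    exact hne (h.symm.trans h')

theorem cn_pos {s q : Q} {p : Q × ℕ} (hp : p ∈ Po B a b D z k) (h : cj B a b s p = q) : 0 < cn B a b D z k s q :=
  (Set.ncard_pos (ps_fin H s q)).2 ⟨p, hp, h⟩

theorem exists_of_pos {s q : Q} (h : 0 < cn B a b D z k s q) : ∃ p ∈ Po B a b D z k, cj B a b s p = q := by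
  obtain ⟨p, hp⟩ := (Set.ncard_pos (ps_fin H s q)).1 h
  exact ⟨p, hp.1, hp.2⟩

/-- All values are `q`. -/
theorem all_of_eq {s q : Q} (h : cn B a b D z k s q = tt B a b D z k) : ∀ p ∈ Po B a b D z k, cj B a b s p = q := by
  intro p hp
  by_contra hne
  have h1 := cn_add_le H s (q := cj B a b s p) (q' := q) hne
  have h2 := cn_pos H hp (rfl : cj B a b s p = _)
  omega

/-- All values are `q` or `q'`. -/
theorem all_of_eq2 {s q q' : Q} (hne : q ≠ q')
    (h : cn B a b D z k s q + cn B a b D z k s q' = tt B a b D z k) :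
    ∀ p ∈ Po B a b D z k, cj B a b s p = q ∨ cj B a b s p = q' := by
  intro p hp
  by_contra hno
  push Not at hno
  unfold cn at h
  rw [← Set.ncard_union_eq ?_ (ps_fin H s q) (ps_fin H s q')] at h
  · have h1 := Set.eq_of_subset_of_ncard_le (s := PS B a b D z k s q ∪ PS B a b D z k s q') (t := Po B a b D z k)
      (fun p h => h.elim (fun h => h.1) fun h => h.1) (by rw [h]; exact le_rfl) (po_fin H)
    rw [← h1] at hp
    rcases hp with hp | hp
    · exact hno.1 hp.2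
    · exact hno.2 hp.2
  · rw [Set.disjoint_left]
    rintro p ⟨_, h⟩ ⟨_, h'⟩
    exact hne (h.symm.trans h')

theorem w_pow_k : wC B a b ^ k = z ^ k := by
  have h1 := (perC H).per (1 : Q)
  have h2 : (H.up.U ^ (2 * k)) (1 : Q) = 1 * wC B a b ^ k := H31.C_U_pow H (map_one _) k
  rw [one_mul] at h2
  rw [← h2, h1, mul_one]

/-- `w ^ k` is central in the kernel of `eps`. -/
theorem wk_comm {s : Q} (hs : eps s = 1) : wC B a b ^ k * s = s * wC B a b ^ k := by
  rw [w_pow_k H]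
  have h1 : Commute s z := H.cen s hs
  exact (h1.pow_right k).eq.symm

theorem cj_mod {s : Q} (hs : eps s = 1) (m : Q) (j : ℕ) : cj B a b s (m, j) = cj B a b s (m, j % k) := by
  unfold cj
  have h1 : wC B a b ^ j = wC B a b ^ (j % k) * (wC B a b ^ k) ^ (j / k) := by
    rw [← pow_mul, ← pow_add, Nat.mod_add_div]
  have h2 : (wC B a b ^ k) ^ (j / k) * s * ((wC B a b ^ k) ^ (j / k))⁻¹ = s := by
    have h3 : Commute (wC B a b ^ k) s := wk_comm H hs
    rw [(h3.pow_left (j / k)).eq, mul_inv_cancel_right]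
  show m * wC B a b ^ j * s * (m * wC B a b ^ j)⁻¹ = m * wC B a b ^ (j % k) * s * (m * wC B a b ^ (j % k))⁻¹
  rw [h1]
  calc m * (wC B a b ^ (j % k) * (wC B a b ^ k) ^ (j / k)) * s *
        (m * (wC B a b ^ (j % k) * (wC B a b ^ k) ^ (j / k)))⁻¹
      = m * wC B a b ^ (j % k) * ((wC B a b ^ k) ^ (j / k) * s * ((wC B a b ^ k) ^ (j / k))⁻¹) *
        (m * wC B a b ^ (j % k))⁻¹ := by group
    _ = _ := by rw [h2]

/-- Conjugation by an element of `mZ`. -/
theorem cn_m_le (s q : Q) {m : Q} (hm : m ∈ mZ B a b D z k) :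
    cn B a b D z k s q ≤ cn B a b D z k s (m * q * m⁻¹) := by
  refine Set.ncard_le_ncard_of_injOn (fun p : Q × ℕ => (m * p.1, p.2)) ?_ ?_ (ps_fin H _ _)
  · rintro ⟨m', j⟩ ⟨⟨h1, h2⟩, h3⟩
    refine ⟨⟨Subgroup.mul_mem _ hm h1, h2⟩, ?_⟩
    rw [← h3]
    unfold cj
    dsimp only
    group
  · rintro ⟨m', j⟩ _ ⟨m'', j'⟩ _ h
    have h1 := congrArg Prod.fst h
    have h2 := congrArg Prod.snd h
    exact Prod.ext (mul_left_cancel h1) h2

theorem cn_m (s q : Q) {m : Q} (hm : m ∈ mZ B a b D z k) :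
    cn B a b D z k s (m * q * m⁻¹) = cn B a b D z k s q := by
  refine le_antisymm ?_ (cn_m_le H s q hm)
  have h1 := cn_m_le H s (m * q * m⁻¹) (Subgroup.inv_mem _ hm)
  have h2 : m⁻¹ * (m * q * m⁻¹) * m⁻¹⁻¹ = q := by group
  rwa [h2] at h1

/-- Conjugation by `w`. -/
theorem cn_w_le {s : Q} (hs : eps s = 1) (q : Q) :
    cn B a b D z k s q ≤ cn B a b D z k s (wC B a b * q * (wC B a b)⁻¹) := by
  refine Set.ncard_le_ncard_of_injOn
    (fun p : Q × ℕ => (wC B a b * p.1 * (wC B a b)⁻¹, (p.2 + 1) % k)) ?_ ?_ (ps_fin H _ _)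
  · rintro ⟨m', j⟩ ⟨⟨h1, h2⟩, h3⟩
    refine ⟨⟨?_, Nat.mod_lt _ H.kpos⟩, ?_⟩
    · have h4 := Ct.mZ_conj H h1 1
      rwa [zpow_one, zpow_neg, zpow_one] at h4
    · show cj B a b s (_, (j + 1) % k) = _
      rw [← cj_mod H hs, ← h3]
      unfold cj
      dsimp only
      rw [pow_succ']
      group
  · rintro ⟨m', j⟩ ⟨⟨_, h2⟩, _⟩ ⟨m'', j'⟩ ⟨⟨_, h2'⟩, _⟩ h
    have h1 : wC B a b * m' * (wC B a b)⁻¹ = wC B a b * m'' * (wC B a b)⁻¹ := congrArg Prod.fst h
    have h3 : (j + 1) % k = (j' + 1) % k := congrArg Prod.snd h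
    have h2 : j < k := h2
    have h2' : j' < k := h2'
    have h4 : m' = m'' := mul_left_cancel (mul_right_cancel h1)
    have h5 : (j + 1) ≡ (j' + 1) [MOD k] := h3
    have h6 : j ≡ j' [MOD k] := Nat.ModEq.add_right_cancel' 1 h5
    have h7 : j = j' := by
      unfold Nat.ModEq at h6
      rwa [Nat.mod_eq_of_lt h2, Nat.mod_eq_of_lt h2'] at h6
    rw [h4, h7]

theorem cn_wp_le {s : Q} (hs : eps s = 1) (j : ℕ) : ∀ q : Q,
    cn B a b D z k s q ≤ cn B a b D z k s (wC B a b ^ j * q * (wC B a b ^ j)⁻¹) := by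
  induction j with
  | zero => intro q; simp
  | succ j ih =>
    intro q
    refine (ih q).trans ((cn_w_le H hs _).trans (le_of_eq ?_))
    congr 1
    rw [pow_succ']
    group

theorem cn_wp {s : Q} (hs : eps s = 1) (j : ℕ) (q : Q) :
    cn B a b D z k s (wC B a b ^ j * q * (wC B a b ^ j)⁻¹) = cn B a b D z k s q := by
  have := H.fin
  refine le_antisymm ?_ (cn_wp_le H hs j q)
  -- the inverse is a power
  obtain ⟨i, hi⟩ : ∃ i : ℕ, wC B a b ^ i = (wC B a b ^ j)⁻¹ := by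
    have h1 : (wC B a b ^ j)⁻¹ ∈ Subgroup.zpowers (wC B a b) :=
      Subgroup.inv_mem _ ((Subgroup.zpowers _).pow_mem (Subgroup.mem_zpowers _) j)
    rw [← (isOfFinOrder_of_finite (wC B a b)).mem_powers_iff_mem_zpowers] at h1
    exact h1
  refine (cn_wp_le H hs i _).trans (le_of_eq ?_)
  congr 1
  rw [hi]
  group

/-- Conjugation by a position. -/
theorem cn_cj {s : Q} (hs : eps s = 1) (q : Q) {p : Q × ℕ} (hp : p.1 ∈ mZ B a b D z k) :
    cn B a b D z k s (cj B a b q p) = cn B a b D z k s q := by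
  have h1 : cj B a b q p = p.1 * (wC B a b ^ p.2 * q * (wC B a b ^ p.2)⁻¹) * p.1⁻¹ := by
    unfold cj
    group
  rw [h1, cn_m H s _ hp, cn_wp H hs]

/-- All values occur equally often. -/
theorem cn_eq {s q : Q} (hs : eps s = 1) (h : 0 < cn B a b D z k s q) :
    cn B a b D z k s q = cn B a b D z k s s := by
  obtain ⟨p, hp, rfl⟩ := exists_of_pos H h
  exact cn_cj H hs s hp.1

/-- Two rotations with a common value have the same values. -/
theorem cn_iff {s s' q q' : Q} (hs' : eps s' = 1) (h : 0 < cn B a b D z k s q)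
    (h' : 0 < cn B a b D z k s' q) (hq : 0 < cn B a b D z k s q') : 0 < cn B a b D z k s' q' := by
  obtain ⟨p, hp, rfl⟩ := exists_of_pos H h
  obtain ⟨p', hp', rfl⟩ := exists_of_pos H hq
  rw [cn_cj H hs' s hp.1] at h'
  rwa [cn_cj H hs' s hp'.1]

/-- Either all values are `q` or at most half of them. -/
theorem cn_half {s : Q} (hs : eps s = 1) (q : Q) :
    cn B a b D z k s q = tt B a b D z k ∨ 2 * cn B a b D z k s q ≤ tt B a b D z k := by
  by_cases h0 : 0 < cn B a b D z k s q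
  swap
  · right; omega
  by_cases h1 : ∀ p ∈ Po B a b D z k, cj B a b s p = q
  · left
    unfold cn tt
    congr 1
    ext p
    exact ⟨fun h => h.1, fun h => ⟨h, h1 p h⟩⟩
  · right
    push Not at h1
    obtain ⟨p, hp, hne⟩ := h1
    have h2 := cn_add_le H s hne
    have h3 := cn_pos H hp (rfl : cj B a b s p = _)
    rw [cn_eq H hs h3, cn_eq H hs h0] at h2
    rw [cn_eq H hs h0]
    omega

/-- More than half of the values of `t` are `q`: then all are. -/
theorem g1 {s s' q : Q} (hs : eps s = 1) (hs' : eps s' = 1)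
    (h : tt B a b D z k < cn B a b D z k s q + cn B a b D z k s' q) :
    cn B a b D z k s q = tt B a b D z k ∧ cn B a b D z k s' q = tt B a b D z k := by
  have key : ∀ {s s' : Q}, eps s = 1 → eps s' = 1 → cn B a b D z k s q = tt B a b D z k →
      0 < cn B a b D z k s' q → cn B a b D z k s' q = tt B a b D z k := by
    intro s s' hs hs' h1 h2
    rcases cn_half H hs' q with h3 | h3
    · exact h3
    · exfalso
      -- another value of `s'`
      have h4 : ∃ p ∈ Po B a b D z k, cj B a b s' p ≠ q := by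
        by_contra hno
        push Not at hno
        have h5 : cn B a b D z k s' q = tt B a b D z k := by
          unfold cn tt
          congr 1
          ext p
          exact ⟨fun h => h.1, fun h => ⟨h, hno p h⟩⟩
        have := tt_pos H
        omega
      obtain ⟨p, hp, hne⟩ := h4
      have h5 := cn_pos H hp (rfl : cj B a b s' p = _)
      have h6 : 0 < cn B a b D z k s q := by rw [h1]; exact tt_pos H
      have h7 := cn_iff H hs h2 h6 h5
      obtain ⟨p', hp', h8⟩ := exists_of_pos H h7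
      rw [all_of_eq H h1 p' hp'] at h8
      exact hne h8.symm
  have h1 := cn_le H s q
  have h2 := cn_le H s' q
  rcases cn_half H hs q with h3 | h3
  · exact ⟨h3, key hs hs' h3 (by omega)⟩
  · rcases cn_half H hs' q with h4 | h4
    · exact ⟨key hs' hs h4 (by omega), h4⟩
    · omega

/-- `q` is fixed by the shifts. -/
def Fx (_H : HypC B a b eps D z k) (q : Q) : Prop :=
  (∀ m ∈ mZ B a b D z k, m * q = q * m) ∧ wC B a b * q = q * wC B a b

theorem Fx.cj {q : Q} (h : Fx H q) {p : Q × ℕ} (hp : p.1 ∈ mZ B a b D z k) : cj B a b q p = q := by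
  unfold KP.cj
  have h1 : Commute (p.1 * wC B a b ^ p.2) q :=
    Commute.mul_left (h.1 _ hp) ((show Commute (wC B a b) q from h.2).pow_left _)
  rw [h1.eq, mul_inv_cancel_right]

theorem Fx.of_cj {s q : Q} (h : Fx H q) {p : Q × ℕ} (hp : p.1 ∈ mZ B a b D z k) (hs : KP.cj B a b s p = q) :
    s = q := by
  have h1 := h.cj H hp
  rw [← hs] at h1
  have h2 : ∀ x y : Q, KP.cj B a b x p = KP.cj B a b y p → x = y := by
    intro x y hxy
    unfold KP.cj at hxy
    exact mul_left_cancel (mul_right_cancel hxy)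
  rw [← hs]
  exact (h2 _ _ h1).symm

/-- If `q` is not fixed then at most half of the values are `q`, and then the others are one more. -/
theorem not_fx {q : Q} (h : ¬ Fx H q) : ∃ q', q ≠ q' ∧ ∀ s, eps s = 1 → cn B a b D z k s q' = cn B a b D z k s q := by
  unfold Fx at h
  by_cases h1 : ∀ m ∈ mZ B a b D z k, m * q = q * m
  · have h2 : wC B a b * q ≠ q * wC B a b := fun h3 => h ⟨h1, h3⟩
    refine ⟨wC B a b * q * (wC B a b)⁻¹, fun h3 => h2 ?_, fun s hs => ?_⟩
    · rw [eq_mul_inv_iff_mul_eq] at h3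
      exact h3.symm
    · have h3 := cn_wp H hs 1 q
      rwa [pow_one] at h3
  · push Not at h1
    obtain ⟨m, hm, h2⟩ := h1
    refine ⟨m * q * m⁻¹, fun h3 => h2 ?_, fun s _ => cn_m H s q hm⟩
    rw [eq_mul_inv_iff_mul_eq] at h3
    exact h3.symm

/-- The quotients of two reflections centralise `q`, if there are no effective reflections. -/
theorem refl_comm (hE : ∀ s, ¬ EffL B a b eps D z k s) {q : Q} (hq : eps q = 1) (hf : Fx H q) {c d : B.L}
    (hc : eps (B.q c) = -1) (hd : eps (B.q d) = -1) : B.q c * (B.q d)⁻¹ ∈ Subgroup.centralizer {q} := by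
  have hz : z ∈ Subgroup.centralizer {q} := by
    rw [Subgroup.mem_centralizer_singleton_iff]
    exact (H.cen q hq).symm
  have hw : wC B a b ∈ Subgroup.centralizer {q} := by
    rw [Subgroup.mem_centralizer_singleton_iff]
    exact hf.2
  have hm : ∀ m ∈ mZ B a b D z k, m ∈ Subgroup.centralizer {q} := by
    intro m hm
    rw [Subgroup.mem_centralizer_singleton_iff]
    exact hf.1 m hm
  -- near `a`, near `b`
  have h1 : ∀ c d : B.L, (B.q a)⁻¹ * B.q c ∈ D → (B.q b)⁻¹ * B.q d ∈ D →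
      B.q c * (B.q d)⁻¹ ∈ Subgroup.centralizer {q} := by
    intro c d hc hd
    have e1 : (z⁻¹ * (B.q c * (B.q d)⁻¹), Multiplicative.ofAdd (1 : ZMod k)) ∈ tC B a b D z k :=
      Subgroup.subset_closure ⟨c, d, hc, hd, rfl⟩
    have e2 : (z⁻¹ * (B.q a * (B.q b)⁻¹), Multiplicative.ofAdd (1 : ZMod k)) ∈ tC B a b D z k :=
      Subgroup.subset_closure ⟨a, b, by rw [inv_mul_cancel]; exact D.one_mem,
        by rw [inv_mul_cancel]; exact D.one_mem, rfl⟩
    have e3 := (tC B a b D z k).mul_mem e1 ((tC B a b D z k).inv_mem e2)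
    have e4 : (z⁻¹ * (B.q c * (B.q d)⁻¹)) * (z⁻¹ * (B.q a * (B.q b)⁻¹))⁻¹ ∈ mZ B a b D z k := by
      rw [mem_mZ]
      convert e3 using 1
      refine Prod.ext rfl ?_
      show (1 : Multiplicative (ZMod k)) = Multiplicative.ofAdd (1 : ZMod k) * (Multiplicative.ofAdd (1 : ZMod k))⁻¹
      rw [mul_inv_cancel]
    have e5 := hm _ e4
    have e6 : B.q c * (B.q d)⁻¹ = z * ((z⁻¹ * (B.q c * (B.q d)⁻¹)) * (z⁻¹ * (B.q a * (B.q b)⁻¹))⁻¹) *
        (z⁻¹ * wC B a b) := by
      unfold wC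
      group
    rw [e6]
    exact Subgroup.mul_mem _ (Subgroup.mul_mem _ hz e5) (Subgroup.mul_mem _ (Subgroup.inv_mem _ hz) hw)
  have hn : ∀ c : B.L, eps (B.q c) = -1 → (B.q a)⁻¹ * B.q c ∈ D ∨ (B.q b)⁻¹ * B.q c ∈ D := by
    intro c hc
    have h2 := hE c
    unfold EffL at h2
    push Not at h2
    by_cases h3 : B.q c * (B.q a)⁻¹ ∈ EI B a b eps D z k
    · exact Or.inl (Ct.memA H (Ct.EI_le H h3))
    · exact Or.inr (Ct.memB H (Ct.EI_le H (h2 hc h3)))
  have hself : ∀ x : B.L, (B.q x)⁻¹ * B.q x ∈ D := fun x => by rw [inv_mul_cancel]; exact D.one_mem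
  rcases hn c hc with hc1 | hc1 <;> rcases hn d hd with hd1 | hd1
  · have e := Subgroup.mul_mem _ (h1 c b hc1 (hself b)) (Subgroup.inv_mem _ (h1 d b hd1 (hself b)))
    have e' : B.q c * (B.q b)⁻¹ * (B.q d * (B.q b)⁻¹)⁻¹ = B.q c * (B.q d)⁻¹ := by group
    rwa [e'] at e
  · exact h1 c d hc1 hd1
  · have e := Subgroup.inv_mem _ (h1 d c hd1 hc1)
    rwa [mul_inv_rev, inv_inv] at e
  · have e := Subgroup.mul_mem _ (Subgroup.inv_mem _ (h1 a c (hself a) hc1)) (h1 a d (hself a) hd1)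
    have e' : (B.q a * (B.q c)⁻¹)⁻¹ * (B.q a * (B.q d)⁻¹) = B.q c * (B.q d)⁻¹ := by group
    rwa [e'] at e

/-- The conjugate of a fixed element by `a` is fixed, and `a ^ 2` centralises it. -/
theorem a_norm (hE : ∀ s, ¬ EffL B a b eps D z k s) {q : Q} (hq : eps q = 1) (hf : Fx H q) :
    Fx H (B.q a * q * (B.q a)⁻¹) ∧ B.q a * B.q a * q = q * (B.q a * B.q a) := by
  have hc := fun {c d : B.L} => refl_comm H hE hq hf (c := c) (d := d)
  have hi : ∀ c : B.L, eps (B.q c) = -1 → eps (B.q (B.inv c)) = -1 := by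
    intro c h
    rw [B.q_inv, map_inv, h]
    decide
  -- products of two reflections
  have hp : ∀ c d : B.L, eps (B.q c) = -1 → eps (B.q d) = -1 → B.q c * B.q d ∈ Subgroup.centralizer {q} := by
    intro c d h1 h2
    have h3 := hc h1 (hi d h2)
    rwa [B.q_inv, inv_inv] at h3
  have hp' : ∀ c d : B.L, eps (B.q c) = -1 → eps (B.q d) = -1 →
      (B.q c)⁻¹ * B.q d ∈ Subgroup.centralizer {q} := by
    intro c d h1 h2
    have h3 := hp (B.inv c) d (hi c h1) h2
    rwa [B.q_inv] at h3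
  have hconj : ∀ x : Q, (B.q a)⁻¹ * x * B.q a ∈ Subgroup.centralizer {q} →
      x * (B.q a * q * (B.q a)⁻¹) = (B.q a * q * (B.q a)⁻¹) * x := by
    intro x hx
    rw [Subgroup.mem_centralizer_singleton_iff] at hx
    calc x * (B.q a * q * (B.q a)⁻¹) = B.q a * ((B.q a)⁻¹ * x * B.q a * q) * (B.q a)⁻¹ := by group
      _ = B.q a * (q * ((B.q a)⁻¹ * x * B.q a)) * (B.q a)⁻¹ := by rw [hx]
      _ = _ := by group
  have hz : (B.q a)⁻¹ * z * B.q a ∈ Subgroup.centralizer {q} := by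
    rw [Subgroup.mem_centralizer_singleton_iff]
    have h1 : eps (B.q a * q * (B.q a)⁻¹) = 1 := by rw [map_mul, map_mul, map_inv, hq, H.ea]; decide
    have h2 := H.cen _ h1
    calc (B.q a)⁻¹ * z * B.q a * q = (B.q a)⁻¹ * (z * (B.q a * q * (B.q a)⁻¹)) * B.q a := by group
      _ = (B.q a)⁻¹ * ((B.q a * q * (B.q a)⁻¹) * z) * B.q a := by rw [h2]
      _ = _ := by group
  have hvert : ∀ c d : B.L, eps (B.q c) = -1 → eps (B.q d) = -1 →
      (B.q a)⁻¹ * (B.q c * (B.q d)⁻¹) * B.q a ∈ Subgroup.centralizer {q} := by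
    intro c d h1 h2
    have e : (B.q a)⁻¹ * (B.q c * (B.q d)⁻¹) * B.q a = ((B.q a)⁻¹ * B.q c) * ((B.q d)⁻¹ * B.q a) := by group
    rw [e]
    exact Subgroup.mul_mem _ (hp' a c H.ea h1) (hp' d a h2 H.ea)
  have hnear : ∀ c : B.L, (B.q a)⁻¹ * B.q c ∈ D → eps (B.q c) = -1 := by
    intro c h
    have h1 : eps ((B.q a)⁻¹ * B.q c) = 1 := H.leD h
    rw [map_mul, map_inv, H.ea] at h1
    rcases Int.units_eq_one_or (eps (B.q c)) with h2 | h2
    · rw [h2] at h1; exact absurd h1 (by decide)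
    · exact h2
  have hnear' : ∀ c : B.L, (B.q b)⁻¹ * B.q c ∈ D → eps (B.q c) = -1 := by
    intro c h
    have h1 : eps ((B.q b)⁻¹ * B.q c) = 1 := H.leD h
    rw [map_mul, map_inv, H.eb] at h1
    rcases Int.units_eq_one_or (eps (B.q c)) with h2 | h2
    · rw [h2] at h1; exact absurd h1 (by decide)
    · exact h2
  have ht : ∀ p ∈ tC B a b D z k, (B.q a)⁻¹ * p.1 * B.q a ∈ Subgroup.centralizer {q} := by
    intro p hp0
    refine Subgroup.closure_induction (p := fun p _ => (B.q a)⁻¹ * p.1 * B.q a ∈ Subgroup.centralizer {q})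
      ?_ ?_ ?_ ?_ hp0
    · rintro _ ⟨c, d, h1, h2, rfl⟩
      have e : (B.q a)⁻¹ * (z⁻¹ * (B.q c * (B.q d)⁻¹)) * B.q a =
          ((B.q a)⁻¹ * z * B.q a)⁻¹ * ((B.q a)⁻¹ * (B.q c * (B.q d)⁻¹) * B.q a) := by group
      show (B.q a)⁻¹ * (z⁻¹ * (B.q c * (B.q d)⁻¹)) * B.q a ∈ _
      rw [e]
      exact Subgroup.mul_mem _ (Subgroup.inv_mem _ hz) (hvert c d (hnear c h1) (hnear' d h2))
    · show (B.q a)⁻¹ * 1 * B.q a ∈ _
      rw [mul_one, inv_mul_cancel]
      exact Subgroup.one_mem _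
    · intro x y _ _ hx hy
      have e : (B.q a)⁻¹ * (x.1 * y.1) * B.q a = ((B.q a)⁻¹ * x.1 * B.q a) * ((B.q a)⁻¹ * y.1 * B.q a) := by group
      show (B.q a)⁻¹ * (x.1 * y.1) * B.q a ∈ _
      rw [e]
      exact Subgroup.mul_mem _ hx hy
    · intro x _ hx
      have e : (B.q a)⁻¹ * (x.1)⁻¹ * B.q a = ((B.q a)⁻¹ * x.1 * B.q a)⁻¹ := by group
      show (B.q a)⁻¹ * (x.1)⁻¹ * B.q a ∈ _
      rw [e]
      exact Subgroup.inv_mem _ hx
  refine ⟨⟨fun m hm => hconj m (ht _ (mem_mZ.1 hm)), hconj _ (hvert a b H.ea H.eb)⟩, ?_⟩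
  have h1 := hp a a H.ea H.ea
  rw [Subgroup.mem_centralizer_singleton_iff] at h1
  exact h1

theorem eps_ca {t : Q} (ht : eps t = 1) : eps (B.q a * t * (B.q a)⁻¹) = 1 := by
  rw [map_mul, map_mul, map_inv, ht, H.ea]
  decide

omit H in
/-- The elements of `SI` are the values. -/
theorem SI_cases {x : Q} (h : x ∈ SI B a b eps D z k) : ∃ m ∈ mZ B a b D z k, ∃ (j : ℕ) (t : B.L), eps (B.q t) = 1 ∧
    (x = cj B a b (B.q t) (m, j) ∨ x = cj B a b (B.q a * B.q t * (B.q a)⁻¹) (m, j)) := by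
  obtain ⟨m, hm, n, t, ht, rfl⟩ := h
  rcases Nat.even_or_odd' n with ⟨j, rfl | rfl⟩
  · refine ⟨m, hm, j, t, ht, Or.inl ?_⟩
    rw [uC_even]
    rfl
  · refine ⟨m, hm, j, t, ht, Or.inr ?_⟩
    rw [uC_odd]
    unfold cj wC
    group

/-- MODE U: if every rotation has `q` at half of the positions or everywhere, and one of them not everywhere, then there
are only two values. -/
theorem two_values (hE : ∀ s, ¬ EffL B a b eps D z k s) {q : Q} (hq : eps q = 1)
    (hall : ∀ t : B.L, eps (B.q t) = 1 →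
      cn B a b D z k (B.q t) q + cn B a b D z k (B.q a * B.q t * (B.q a)⁻¹) q = tt B a b D z k ∨
      (cn B a b D z k (B.q t) q = tt B a b D z k ∧ cn B a b D z k (B.q a * B.q t * (B.q a)⁻¹) q = tt B a b D z k)) :
    ∃ q₁, ∀ x ∈ SI B a b eps D z k, x = q ∨ x = q₁ := by
  have hT := tt_pos H
  by_cases hf : Fx H q
  · obtain ⟨h1, h2⟩ := a_norm H hE hq hf
    refine ⟨B.q a * q * (B.q a)⁻¹, fun x hx => ?_⟩
    obtain ⟨m, hm, j, t, ht, hx⟩ := SI_cases hx
    -- `t = q` or `a t a⁻¹ = q`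
    have h3 : B.q t = q ∨ B.q a * B.q t * (B.q a)⁻¹ = q := by
      by_cases h4 : 0 < cn B a b D z k (B.q t) q
      · obtain ⟨p, hp, h5⟩ := exists_of_pos H h4
        exact Or.inl (hf.of_cj H hp.1 h5)
      · have h4' : 0 < cn B a b D z k (B.q a * B.q t * (B.q a)⁻¹) q := by
          rcases hall t ht with h5 | ⟨h5, _⟩ <;> omega
        obtain ⟨p, hp, h5⟩ := exists_of_pos H h4'
        exact Or.inr (hf.of_cj H hp.1 h5)
    rcases h3 with h3 | h3
    · rw [h3] at hx
      rcases hx with hx | hx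
      · left; rw [hx, hf.cj H hm]
      · right; rw [hx, h1.cj H hm]
    · have h4 : B.q t = B.q a * q * (B.q a)⁻¹ := by
        have e1 : B.q t = (B.q a)⁻¹ * q * B.q a := by rw [← h3]; group
        rw [e1]
        calc (B.q a)⁻¹ * q * B.q a = (B.q a)⁻¹ * (q * (B.q a * B.q a)) * (B.q a)⁻¹ := by group
          _ = (B.q a)⁻¹ * (B.q a * B.q a * q) * (B.q a)⁻¹ := by rw [h2]
          _ = _ := by group
      rw [h3, h4] at hx
      rcases hx with hx | hx
      · right; rw [hx, h1.cj H hm]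
      · left; rw [hx, hf.cj H hm]
  · obtain ⟨q₁, hne, hq₁⟩ := not_fx H hf
    refine ⟨q₁, fun x hx => ?_⟩
    obtain ⟨m, hm, j, t, ht, hx⟩ := SI_cases hx
    have ht' := eps_ca H ht
    have e1 := cn_add_le H (B.q t) hne
    have e2 := cn_add_le H (B.q a * B.q t * (B.q a)⁻¹) hne
    rw [hq₁ _ ht] at e1
    rw [hq₁ _ ht'] at e2
    have hjk : (m, j % k) ∈ Po B a b D z k := ⟨hm, Nat.mod_lt _ H.kpos⟩
    have e3 : cn B a b D z k (B.q t) q + cn B a b D z k (B.q a * B.q t * (B.q a)⁻¹) q = tt B a b D z k := by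
      rcases hall t ht with h5 | ⟨h5, _⟩
      · exact h5
      · omega
    rcases hx with hx | hx
    · rw [hx, cj_mod H ht]
      refine all_of_eq2 H hne ?_ _ hjk
      rw [hq₁ _ ht]
      omega
    · rw [hx, cj_mod H ht']
      refine all_of_eq2 H hne ?_ _ hjk
      rw [hq₁ _ ht']
      omega

/-- No rotation has the value `q` everywhere if another one has it at half of the positions. -/
theorem no_mix {q : Q} {t t' : B.L} (ht' : eps (B.q t') = 1)
    (h : cn B a b D z k (B.q t) q + cn B a b D z k (B.q a * B.q t * (B.q a)⁻¹) q = tt B a b D z k)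
    (h' : cn B a b D z k (B.q t') q = tt B a b D z k ∧
      cn B a b D z k (B.q a * B.q t' * (B.q a)⁻¹) q = tt B a b D z k) : False := by
  have hT := tt_pos H
  -- `q` is fixed
  have hf : Fx H q := by
    by_contra hf
    obtain ⟨q₁, hne, hq₁⟩ := not_fx H hf
    have e1 := cn_add_le H (B.q t') hne
    rw [hq₁ _ ht'] at e1
    omega
  have e0 : cj B a b (B.q t') (1, 0) = q := all_of_eq H h'.1 _ (one_po H)
  have e0' : cj B a b (B.q a * B.q t' * (B.q a)⁻¹) (1, 0) = q := all_of_eq H h'.2 _ (one_po H)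
  have hone : ∀ s : Q, cj B a b s (1, 0) = s := fun s => by unfold cj; simp
  rw [hone] at e0 e0'
  rw [e0] at e0'
  -- `q = a q a⁻¹`
  have hfull : cn B a b D z k q q = tt B a b D z k := by
    unfold cn tt
    congr 1
    ext p
    exact ⟨fun h => h.1, fun h => ⟨h, hf.cj H h.1⟩⟩
  have h3 : B.q t = q := by
    by_cases h4 : 0 < cn B a b D z k (B.q t) q
    · obtain ⟨p, hp, h5⟩ := exists_of_pos H h4
      exact hf.of_cj H hp.1 h5
    · have h4' : 0 < cn B a b D z k (B.q a * B.q t * (B.q a)⁻¹) q := by omega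
      obtain ⟨p, hp, h5⟩ := exists_of_pos H h4'
      have h6 := hf.of_cj H hp.1 h5
      have e1 : B.q t = (B.q a)⁻¹ * q * B.q a := by rw [← h6]; group
      rw [e1]
      have e2 : (B.q a)⁻¹ * (B.q a * q * (B.q a)⁻¹) * B.q a = q := by group
      rwa [e0'] at e2
  rw [h3, e0', hfull] at h
  omega

end

end KP

end Pool.Agent.Lib.MP_688fd0_co.SQ4.CV
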