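import Pool.Agent.Lib.MP_688fd0_co.SQ4.H80.Lab
import Pool.Agent.Lib.MP_688fd0_co.SQ4.H69.CompX

/-!
Type C1, row BIGI: the K part. Every rung of a component is in a closed class which satisfies the hypotheses of the lemmas
M, A, B.
-/

set_option autoImplicit false
set_option linter.unusedSectionVars false

namespace Pool.Agent.Lib.MP_688fd0_co.SQ4.CV

open Pool.Agent.Lib.MP_688fd0_co.OSF Pool.Agent.Lib.MP_688fd0_co.SQ2 Pool.Agent.Lib.MP_688fd0_co.SQ3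
open Pool.Agent.Lib.MP_688fd0_co.SQ4
open SQ2.V (Puz)

/-- The K part of BIGI. -/
theorem kPart :
  ∀ (Q : Type) [Group Q] [DecidableEq Q] (B : Lb.{0, 0} Q) (a b : B.L) (eps : Q →* ℤˣ) (D : Subgroup Q) (z : Q) (k : ℕ)
    (H : HypC B a b eps D z k), (∀ s, ¬ EffL B a b eps D z k s) → ∀ (F : Finset Q) (T : Pth H F) (c : T.C) (x : Q),
    eps x = 1 → (∀ v ∈ F, x⁻¹ * v ∈ D) → (∀ v ∈ F, ∀ δ ∈ D, v * δ ∈ F) →
    ∀ (Pos : Type) [Fintype Pos] (mp : Pos → Q), (∀ c, mp c ∈ mZ B a b D z k) →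
      (∃ q₀, 0 < q₀ ∧ ∀ m ∈ mZ B a b D z k, {c | mp c = m}.ncard = q₀) →
      ∀ (lb : T.Rc c → {t : B.L // eps (B.q t) = 1}) (po : T.Rc c → Pos) (lv : T.Rc c → ZMod (2 * k)),
      (∀ t p n v, ∃! r, lb r = t ∧ po r = p ∧ lv r = n ∧ (T.X c).x r = v) →
      (∀ r, ((T.X c).y r : Q) = (T.X c).x r * ((mp (po r) * uC (B.q a) (B.q b) (lv r).val) * B.q (lb r) *
        (mp (po r) * uC (B.q a) (B.q b) (lv r).val)⁻¹)) →
      (∀ r, lb ((T.X c).tau r) = lb r) →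
      (∀ (t : {t : B.L // eps (B.q t) = 1}) (A : {v // v ∈ F} → Prop),
        (∀ r, lb r = t → (A ((T.X c).x r) ↔ A ((T.X c).y r))) → ∀ r, lb r = t → A ((T.X c).x r) →
          A ((T.X c).x ((T.X c).tau r))) →
      ∀ h : ℕ, FamB H _ _ (T.X c) (T.Y c) (T.wd c) (T.In c) h → (∀ v, T.Y c v) →
      (∃ q₁ ∈ SI B a b eps D z k, ∃ q₂ ∈ SI B a b eps D z k, q₁ ≠ q₂) →
      ∀ (v₀ : {v // v ∈ F}) (A : {v // v ∈ F} → Prop), T.IsComp (fun c' => c' = c) v₀ A →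
        ∀ r, A ((T.X c).x r) → ∃ K : T.Rc c → Prop, K r ∧
          ∀ (p : ℕ) (_ : Fact p.Prime), 4 * k < p → T.GoodC c A K (ZMod p) := by
  intro Q _ _ B a b eps D z k H hE F T c x hx hsh hFD Pos _ mp hmp hcnt lb po lv hbij hval htau hclo h hX hY hSI v₀ A hA
    r₁ hr₁
  obtain ⟨q₀, hq₀, hcnt⟩ := hcnt
  have hFin : Finite Q := H.fin
  have hiff : ∀ r, A ((T.X c).x r) ↔ A ((T.X c).y r) := c69_comp_iff hA rfl
  have hc : CloA T c A := ⟨hiff, hX.clo A hiff⟩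
  set Pb := hc.puz with hPb
  have hOn : ∀ (r : {r : T.Rc c // A ((T.X c).x r)}) (u : {v // A v}), Pb.On r u ↔
      (u.1 = (T.X c).x r.1 ∨ u.1 = (T.X c).y r.1) := by
    intro r u
    constructor
    · rintro (h1 | h1)
      · exact Or.inl (congrArg Subtype.val h1)
      · exact Or.inr (congrArg Subtype.val h1)
    · rintro (h1 | h1)
      · exact Or.inl (Subtype.ext h1)
      · exact Or.inr (Subtype.ext h1)
  have hAx : ∀ (r : T.Rc c) (u : {v // v ∈ F}), A u → (u = (T.X c).x r ∨ u = (T.X c).y r) → A ((T.X c).x r) := by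
    rintro r u hu (h1 | h1)
    · rw [← h1]; exact hu
    · rw [hiff, ← h1]; exact hu
  have hv₀A : A v₀ := (hA v₀).2 Relation.ReflTransGen.refl
  -- connectedness
  have hCv : ∀ u : {v // A v}, Relation.ReflTransGen (fun a b => ∃ r, Pb.On r a ∧ Pb.On r b) ⟨v₀, hv₀A⟩ u := by
    have key : ∀ u, Relation.ReflTransGen (T.Jn fun c' => c' = c) v₀ u → ∀ hu : A u,
        Relation.ReflTransGen (fun a b => ∃ r, Pb.On r a ∧ Pb.On r b) ⟨v₀, hv₀A⟩ ⟨u, hu⟩ := by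
      intro u hu
      induction hu with
      | refl => intro _; exact Relation.ReflTransGen.refl
      | @tail b' c' hb hbc ih =>
        intro hu
        have hb' : A b' := (hA b').2 hb
        refine (ih hb').tail ?_
        obtain ⟨c'', rfl, r, h1⟩ := hbc
        rcases h1 with ⟨h1, h2⟩ | ⟨h1, h2⟩
        · refine ⟨⟨r, by rw [h1]; exact hb'⟩, (hOn _ _).2 (Or.inl h1.symm), (hOn _ _).2 (Or.inr h2.symm)⟩
        · refine ⟨⟨r, by rw [h1]; exact hu⟩, (hOn _ _).2 (Or.inr h2.symm), (hOn _ _).2 (Or.inl h1.symm)⟩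
    intro u
    exact key u.1 ((hA u.1).1 u.2) u.2
  have hsymm : ∀ u u' : {v // A v}, Relation.ReflTransGen (fun a b => ∃ r, Pb.On r a ∧ Pb.On r b) u u' →
      Relation.ReflTransGen (fun a b => ∃ r, Pb.On r a ∧ Pb.On r b) u' u := by
    intro u u' huu
    induction huu with
    | refl => exact Relation.ReflTransGen.refl
    | tail _ hs ih =>
      obtain ⟨r, h1, h2⟩ := hs
      exact Relation.ReflTransGen.head ⟨r, h2, h1⟩ ih
  have hC : ∀ u u' : {v // A v}, Relation.ReflTransGen (fun a b => ∃ r, Pb.On r a ∧ Pb.On r b) u u' :=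
    fun u u' => (hsymm _ _ (hCv u)).trans (hCv u')
  classical
  have hfr : Fintype {r : T.Rc c // A ((T.X c).x r)} := Fintype.ofFinite _
  have hfs : Fintype {v // A v} := Fintype.ofFinite _
  have hev : ∀ v : {v // v ∈ F}, eps (v : Q) = 1 := fun v => by
    have h1 : eps (x⁻¹ * (v : Q)) = 1 := H.leD (hsh v v.2)
    rw [map_mul, map_inv, hx, inv_one, one_mul] at h1
    exact h1
  have hrf : ∀ v : {v // v ∈ F}, rfC eps (B.q a) (v : Q) = v := fun v => if_pos (hev v)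
  -- the labels
  have L : KP.Lab H Pb (fun u => ((u.1 : {v // v ∈ F}) : Q)) mp q₀ (fun r => lb r.1) (fun r => po r.1)
      (fun r => lv r.1) :=
    { inj := fun u u' huu => Subtype.ext (Subtype.ext huu)
      mpZ := hmp
      cnt := hcnt
      pos := hq₀
      bij := by
        intro t p n v
        obtain ⟨r, ⟨h1, h2, h3, h4⟩, h5⟩ := hbij t p n v.1
        refine ⟨⟨r, by rw [h4]; exact v.2⟩, ⟨h1, h2, h3, Subtype.ext h4⟩, ?_⟩
        rintro ⟨r', hr'⟩ ⟨h6, h7, h8, h9⟩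
        exact Subtype.ext (h5 r' ⟨h6, h7, h8, congrArg Subtype.val h9⟩)
      val := fun r => hval r.1
      tau := fun r => htau r.1
      clo := by
        intro t A' hA' r hr hAr
        have h1 := hclo t (fun u => ∃ hu : A u, A' ⟨u, hu⟩) (by
          intro r' hr'
          constructor
          · rintro ⟨h2, h3⟩
            exact ⟨(hiff r').1 h2, (hA' ⟨r', h2⟩ hr').1 h3⟩
          · rintro ⟨h2, h3⟩
            exact ⟨(hiff r').2 h2, (hA' ⟨r', (hiff r').2 h2⟩ hr').2 h3⟩) r.1 hr ⟨r.2, hAr⟩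
        exact h1.2
      conn := hC }
  -- three strands
  have h3 : 3 ≤ Fintype.card {v // A v} := by
    obtain ⟨q₁, hq₁, q₂, hq₂, hne⟩ := hSI
    obtain ⟨r₂, h1, h2⟩ := L.move ⟨v₀, hv₀A⟩ hq₁
    obtain ⟨r₃, h4, h5⟩ := L.move ⟨v₀, hv₀A⟩ hq₂
    have h6 : Pb.y r₂ ≠ Pb.y r₃ := by
      intro h7
      rw [h7, h5] at h2
      exact hne (mul_left_cancel h2).symm
    have h7 : ({⟨v₀, hv₀A⟩, Pb.y r₂, Pb.y r₃} : Finset {v // A v}).card = 3 :=
      Finset.card_eq_three.2 ⟨_, _, _, fun e => Pb.ne r₂ (h1.trans e), fun e => Pb.ne r₃ (h4.trans e), h6, rfl⟩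
    rw [← h7]
    exact Finset.card_le_univ _
  obtain ⟨K₀, hK₀, hK⟩ := L.main hE h3 ⟨r₁, hr₁⟩
  refine ⟨fun r => ∃ h : A ((T.X c).x r), K₀ ⟨r, h⟩, ⟨hr₁, hK₀⟩, ?_⟩
  intro p hp hpk
  have hKe : (fun r : {r : T.Rc c // A ((T.X c).x r)} => ∃ h : A ((T.X c).x r.1), K₀ ⟨r.1, h⟩) = K₀ := by
    funext r
    exact propext ⟨fun h => h.2, fun h => ⟨r.2, h⟩⟩
  have hcard : Nat.card {u // A u} ≤ 4 * k := by
    have h1 := c69_card_sheet (F := F) H x (A := A) fun u _ => hsh u u.2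
    omega
  refine ⟨hcard, Pb, hc.sub, hfr, fun _ => rfl, fun _ => rfl, ?_, ?_⟩
  · rw [hKe]
    exact hK
  -- the weights
  obtain ⟨m, wt, hm0, hmk, hwt, hsum⟩ := hX.wt
  refine ⟨fun r => (wt r.1 : ZMod p), (m : ZMod p), ?_, ?_⟩
  · intro h4
    rw [ZMod.natCast_eq_zero_iff] at h4
    have := Nat.le_of_dvd hm0 h4
    omega
  · intro u
    rw [← hsum u.1 (hY u.1)]
    push_cast
    refine Fintype.sum_of_injective Subtype.val Subtype.val_injective _ _ ?_ ?_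
    · intro r hr
      rw [if_neg]
      intro h4
      exact hr ⟨⟨r, hAx r u.1 u.2 h4⟩, rfl⟩
    · intro r
      exact if_congr (hOn r u) rfl rfl

end Pool.Agent.Lib.MP_688fd0_co.SQ4.CV
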