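import Pool.Agent.Lib.MP_688fd0_co.SQ4.H69.Union
import Pool.Agent.Lib.MP_688fd0_co.SQ4.H69.NoCut
import Pool.Agent.Lib.MP_688fd0_co.SQ3.H98.KG

/-!
Type C1, row BIGI, closed classes, the puzzle part: if every strand has two directions then a class of mode U and its
complement satisfy the hypotheses of the lemmas M, A, B.
-/

set_option autoImplicit false

namespace Pool.Agent.Lib.MP_688fd0_co.SQ4

open Pool.Agent.Lib.MP_688fd0_co.SQ2.V Pool.Agent.Lib.MP_688fd0_co.SQ2.V.Puz

namespace KP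

section

variable {S R : Type} [Fintype S] [DecidableEq S] {P : Puz S R}

/-- All rungs at a strand are linked if the rungs outside `K` are parallel. -/
theorem hypK_two {K : R → Prop} (hcl : Closed P K)
    (hst : ∀ r r', K r → K r' → Relation.ReflTransGen (Nx P) r r')
    (hp : ∀ r r' v, P.On r v → P.On r' v → P.oth r v = P.oth r' v → (K r ↔ K r'))
    (ht : ∀ r, K (P.tau r) ↔ ¬ K r)
    (h2 : ∀ r r' v, ¬ K r → ¬ K r' → P.On r v → P.On r' v → P.oth r v = P.oth r' v)
    (hT : P.TwoN) (hN : P.NoCut) (hC : P.ConnS) : P.HypK K := by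
  have hlk : ∀ r r' v, P.On r v → P.On r' v → P.oth r v ≠ P.oth r' v → P.Lk K r r' := by
    intro r r' v h1 h1' hne
    refine ⟨fun h => ?_, fun h => ?_⟩
    · rw [ht] at h
      by_contra h3
      exact hne (h2 r r' v h3 h h1 h1')
    · rw [ht] at h
      by_contra h3
      exact hne (h2 r r' v h h3 h1 h1')
  have hln : ∀ r r' v, P.On r v → P.On r' v → P.Ln K v r r' := by
    intro r r' v h1 h1'
    refine ⟨h1, h1', ?_⟩
    by_cases h3 : P.oth r v = P.oth r' v
    · exact Or.inl h3
    · exact Or.inr (hlk r r' v h1 h1' h3)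
  exact
    { toRetK := RetK.of_strong hcl fun r q v hr ha => hst _ _ (hcl r q v hr ha) hr
      two := fun r v hv => by
        obtain ⟨q, hq⟩ := hT r v hv
        exact ⟨q, hq, hlk r q v hq.1 hq.2.1 hq.2.2⟩
      par := fun r r' v h1 h1' h3 => ⟨hp r r' v h1 h1' h3, by rw [ht, ht, hp r r' v h1 h1' h3]⟩
      att := fun r r' v h1 h1' => Relation.ReflTransGen.single (hln r r' v h1 h1')
      cut := fun L r r' h1 h1' => Relation.ReflTransGen.mono
        (fun a b ⟨ha, hb, v, hv1, hv2⟩ => ⟨ha, hb, v, hln a b v hv1 hv2⟩) _ _ (hN L r r' h1 h1')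
      conn := fun r r' => Relation.ReflTransGen.mono
        (fun a b ⟨v, hv1, hv2⟩ => ⟨v, hln a b v hv1 hv2⟩) _ _ (hC r r') }

end

section

variable {S R I : Type} [Fintype S] [DecidableEq S] [Fintype R] {P : Puz S R} {fam : R → I} {e : I → ℕ}

/-- A class of mode U with two directions, and its complement. -/
theorem modeU_two (hF : Fams P fam e)
    (hC : ∀ v w, Relation.ReflTransGen (fun a b => ∃ r, P.On r a ∧ P.On r b) v w) {K : R → Prop} {u : S → S}
    (hU : ModeU P fam e K u) (hst : ∀ r r', K r → K r' → Relation.ReflTransGen (Nx P) r r')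
    (hno : ∀ r, ¬ FTwo P fam (fam r))
    (h2 : ∀ r r' v, ¬ K r → ¬ K r' → P.On r v → P.On r' v → P.oth r v = P.oth r' v)
    (hT : P.TwoN) (hN : P.NoCut) (hCS : P.ConnS) : P.HypK K ∧ P.HypK fun r => ¬ K r := by
  have hp : ∀ r r' v, P.On r v → P.On r' v → P.oth r v = P.oth r' v → (K r ↔ K r') := by
    intro r r' v h1 h1' h3
    rw [hU.mem r v (hno r) h1, hU.mem r' v (hno r') h1', h3]
  have ht : ∀ r, K (P.tau r) ↔ ¬ K r := fun r => hU.tau r (hno r)
  refine ⟨hypK_two hU.closed hst hp ht h2 hT hN hCS, ?_⟩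
  have hcl : Closed P fun r => ¬ K r := by
    intro r r' v h1 ha
    rw [ht, not_not]
    by_contra h3
    exact ha.2.2 (h2 r r' v h1 h3 ha.1 ha.2.1)
  refine hypK_two hcl ?_ (fun r r' v h1 h1' h3 => not_congr (hp r r' v h1 h1' h3)) (fun r => not_congr (ht r))
    (fun r r' v h1 h1' ho ho' => ?_) hT hN hCS
  · intro r r' hr hr'
    have hX : Closed P fun q => Relation.ReflTransGen (Nx P) r q := fun a b v h h' => h.tail ⟨b, v, h', rfl⟩
    have hXK : ∀ q, Relation.ReflTransGen (Nx P) r q → ¬ K q := by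
      intro q hq
      induction hq with
      | refl => exact hr
      | tail _ h ih =>
        obtain ⟨a, v, h4, rfl⟩ := h
        exact hcl _ a v ih h4
    rcases unionCount hF hC hX ⟨r, Relation.ReflTransGen.refl⟩ with h6 | ⟨u', h6⟩
    · exact h6 r'
    · have hv : P.On r' (P.x r') := Or.inl rfl
      obtain ⟨q, q1, q2⟩ := h6.touch (P.x r')
      have h7 := h6.dir q _ q1 q2
      have h8 := h2 r' q (P.x r') hr' (hXK q q1) hv q2
      exact (h6.mem r' _ (hno r') hv).2 (h8.trans h7)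
  · rw [not_not] at h1 h1'
    rw [hU.dir r v h1 ho, hU.dir r' v h1' ho']

end

end KP

end Pool.Agent.Lib.MP_688fd0_co.SQ4
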