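import Pool.Agent.Lib.MP_688fd0_co.SQ4.H80.Grp
import Pool.Agent.Lib.MP_688fd0_co.SQ4.H80.Two

/-!
Type C1, row BIGI, closed classes: a puzzle whose rungs are labelled by a rotation, a position and a level. The families are
the components of the rungs of one rotation.
-/

set_option autoImplicit false
set_option linter.unusedSectionVars false

namespace Pool.Agent.Lib.MP_688fd0_co.SQ4.CV

open Pool.Agent.Lib.MP_688fd0_co.OSF Pool.Agent.Lib.MP_688fd0_co.SQ2 Pool.Agent.Lib.MP_688fd0_co.SQ3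
open Pool.Agent.Lib.MP_688fd0_co.SQ4
open SQ2.V (Puz)
open SQ2.V.AvoidOf (on_x on_y oth_x oth_y on_iff_oth)

namespace KP

/-! ### Counting positions -/

section cnt

variable {Q : Type} [Group Q] {B : Lb.{0, 0} Q} {a b : B.L} {eps : Q →* ℤˣ} {D : Subgroup Q} {z : Q} {k : ℕ}

/-- The value of the rotation `t` at the position `m` and the level `n`. -/
def vl (B : Lb.{0, 0} Q) (a b : B.L) (t m : Q) (n : ℕ) : Q :=
  (m * uC (B.q a) (B.q b) n) * t * (m * uC (B.q a) (B.q b) n)⁻¹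

theorem vl_even (t m : Q) (j : ℕ) : vl B a b t m (2 * j) = cj B a b t (m, j) := by
  unfold vl
  rw [uC_even]
  rfl

theorem vl_odd (t m : Q) (j : ℕ) : vl B a b t m (2 * j + 1) = cj B a b (B.q a * t * (B.q a)⁻¹) (m, j) := by
  unfold vl
  rw [uC_odd]
  unfold cj wC
  group

theorem vl_inv (t m : Q) (n : ℕ) : vl B a b t⁻¹ m n = (vl B a b t m n)⁻¹ := by
  unfold vl
  group

theorem sum_range_two (f : ℕ → ℕ) (k : ℕ) :
    ∑ n ∈ Finset.range (2 * k), f n = ∑ j ∈ Finset.range k, (f (2 * j) + f (2 * j + 1)) := by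
  induction k with
  | zero => rfl
  | succ k ih =>
    rw [show 2 * (k + 1) = 2 * k + 1 + 1 by ring, Finset.sum_range_succ, Finset.sum_range_succ, ih,
      Finset.sum_range_succ]
    ring

theorem sum_zmod {n : ℕ} [NeZero n] (f : ℕ → ℕ) : ∑ x : ZMod n, f x.val = ∑ i ∈ Finset.range n, f i := by
  obtain ⟨m, rfl⟩ : ∃ m, n = m + 1 := ⟨n - 1, by have := NeZero.pos n; omega⟩
  exact Fin.sum_univ_eq_sum_range f (m + 1)

theorem exists_mf (H : HypC B a b eps D z k) : ∃ mf : Finset Q, ∀ m, m ∈ mf ↔ m ∈ mZ B a b D z k := by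
  have := H.fin
  exact ⟨(Set.toFinite (mZ B a b D z k : Set Q)).toFinset, fun m => by
    rw [Set.Finite.mem_toFinset]; exact Iff.rfl⟩

open Classical in
theorem cn_eq_sum {mf : Finset Q} (hmf : ∀ m, m ∈ mf ↔ m ∈ mZ B a b D z k) (s q : Q) :
    cn B a b D z k s q = ∑ m ∈ mf, ∑ j ∈ Finset.range k, if cj B a b s (m, j) = q then 1 else 0 := by
  have h1 : PS B a b D z k s q = ((mf ×ˢ Finset.range k).filter fun p => cj B a b s p = q : Finset (Q × ℕ)) := by
    ext p
    rw [Finset.coe_filter, Set.mem_ofPred_eq, Finset.mem_product, hmf, Finset.mem_range]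
    exact Iff.rfl
  unfold cn
  rw [h1, Set.ncard_coe_finset, Finset.card_filter, Finset.sum_product]

theorem tt_eq {mf : Finset Q} (hmf : ∀ m, m ∈ mf ↔ m ∈ mZ B a b D z k) : tt B a b D z k = mf.card * k := by
  have h1 : Po B a b D z k = ((mf ×ˢ Finset.range k : Finset (Q × ℕ)) : Set (Q × ℕ)) := by
    ext p
    rw [Finset.mem_coe, Finset.mem_product, hmf, Finset.mem_range]
    exact Iff.rfl
  unfold tt
  rw [h1, Set.ncard_coe_finset, Finset.card_product, Finset.card_range]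

end cnt

section pos

variable {Q : Type} [Group Q] {B : Lb.{0, 0} Q} {a b : B.L} {eps : Q →* ℤˣ} {D : Subgroup Q} {z : Q} {k : ℕ}
  {Pos : Type} [Fintype Pos] {mp : Pos → Q} {q₀ : ℕ}

omit [Group Q] in
theorem sum_pos {mf : Finset Q} (h1 : ∀ p, mp p ∈ mf) (h2 : ∀ m ∈ mf, {p | mp p = m}.ncard = q₀) (G : Q → ℕ) :
    ∑ p, G (mp p) = q₀ * ∑ m ∈ mf, G m := by
  classical
  rw [← Finset.sum_fiberwise_of_maps_to (s := Finset.univ) (t := mf) (g := mp) (fun p _ => h1 p), Finset.mul_sum]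
  refine Finset.sum_congr rfl fun m hm => ?_
  rw [Finset.sum_congr rfl (g := fun _ => G m) (fun p hp => by rw [(Finset.mem_filter.1 hp).2]), Finset.sum_const,
    smul_eq_mul, ← h2 m hm, ← Set.ncard_coe_finset]
  congr 2
  ext p
  simp

variable (H : HypC B a b eps D z k) (hm : ∀ p, mp p ∈ mZ B a b D z k)
  (hc : ∀ m ∈ mZ B a b D z k, {p | mp p = m}.ncard = q₀)

include H hm hc

theorem card_pos : Fintype.card Pos * (2 * k) = 2 * (q₀ * tt B a b D z k) := by
  obtain ⟨mf, hmf⟩ := exists_mf H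
  have h1 := sum_pos (mp := mp) (q₀ := q₀) (mf := mf) (fun p => (hmf _).2 (hm p)) (fun m h => hc m ((hmf m).1 h))
    fun _ => 1
  rw [tt_eq hmf]
  simp only [Finset.sum_const, smul_eq_mul, mul_one, Finset.card_univ] at h1
  rw [h1]
  ring

omit H hm hc in
/-- The number of positions and levels where the value of `t` is `q`. -/
noncomputable def cP (B : Lb.{0, 0} Q) (a b : B.L) (k : ℕ) (mp : Pos → Q) (t q : Q) : ℕ :=
  {x : Pos × ZMod (2 * k) | vl B a b t (mp x.1) x.2.val = q}.ncard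

theorem cP_eq (t q : Q) :
    cP B a b k mp t q = q₀ * (cn B a b D z k t q + cn B a b D z k (B.q a * t * (B.q a)⁻¹) q) := by
  classical
  obtain ⟨mf, hmf⟩ := exists_mf H
  have hk := H.kpos
  have : NeZero (2 * k) := ⟨by omega⟩
  have h0 : cP B a b k mp t q = ∑ x : Pos × ZMod (2 * k), if vl B a b t (mp x.1) x.2.val = q then 1 else 0 := by
    unfold cP
    rw [← Finset.card_filter, ← Set.ncard_coe_finset]
    congr 1
    ext x
    simp
  rw [h0, Fintype.sum_prod_type]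
  have h1 : ∀ p : Pos, (∑ n : ZMod (2 * k), if vl B a b t (mp p) n.val = q then 1 else 0) =
      ∑ j ∈ Finset.range k, ((if cj B a b t (mp p, j) = q then 1 else 0) +
        if cj B a b (B.q a * t * (B.q a)⁻¹) (mp p, j) = q then 1 else 0) := by
    intro p
    rw [sum_zmod fun n => if vl B a b t (mp p) n = q then 1 else 0, sum_range_two]
    refine Finset.sum_congr rfl fun j _ => ?_
    rw [vl_even, vl_odd]
  rw [Finset.sum_congr rfl fun p _ => h1 p]
  rw [sum_pos (mp := mp) (q₀ := q₀) (mf := mf) (fun p => (hmf _).2 (hm p)) (fun m h => hc m ((hmf m).1 h))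
    fun m => ∑ j ∈ Finset.range k, ((if cj B a b t (m, j) = q then 1 else 0) +
        if cj B a b (B.q a * t * (B.q a)⁻¹) (m, j) = q then 1 else 0)]
  congr 1
  rw [cn_eq_sum hmf, cn_eq_sum hmf, ← Finset.sum_add_distrib]
  refine Finset.sum_congr rfl fun m _ => ?_
  rw [Finset.sum_add_distrib]

end pos

/-! ### Labelled puzzles -/

/-- The rungs are labelled by a rotation, a position and a level. -/
structure Lab {Q : Type} [Group Q] {B : Lb.{0, 0} Q} {a b : B.L} {eps : Q →* ℤˣ} {D : Subgroup Q} {z : Q} {k : ℕ}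
    (_H : HypC B a b eps D z k) {S R Pos : Type} [DecidableEq S] (P : Puz S R) (g : S → Q) (mp : Pos → Q) (q₀ : ℕ)
    (lb : R → {t : B.L // eps (B.q t) = 1}) (po : R → Pos) (lv : R → ZMod (2 * k)) : Prop where
  inj : Function.Injective g
  mpZ : ∀ p, mp p ∈ mZ B a b D z k
  cnt : ∀ m ∈ mZ B a b D z k, {p | mp p = m}.ncard = q₀
  pos : 0 < q₀
  bij : ∀ t p n v, ∃! r, lb r = t ∧ po r = p ∧ lv r = n ∧ P.x r = v
  val : ∀ r, g (P.y r) = g (P.x r) * vl B a b (B.q (lb r).1) (mp (po r)) (lv r).val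
  tau : ∀ r, lb (P.tau r) = lb r
  clo : ∀ (t : {t : B.L // eps (B.q t) = 1}) (A : S → Prop), (∀ r, lb r = t → (A (P.x r) ↔ A (P.y r))) →
    ∀ r, lb r = t → A (P.x r) → A (P.x (P.tau r))
  conn : ∀ v w, Relation.ReflTransGen (fun a b => ∃ r, P.On r a ∧ P.On r b) v w

/-- The number of rungs of one rotation which start at a strand. -/
def eL (Pos : Type) [Fintype Pos] (k : ℕ) : ℕ := Fintype.card Pos * (2 * k)

section lab

variable {Q : Type} [Group Q] {B : Lb.{0, 0} Q} {a b : B.L} {eps : Q →* ℤˣ} {D : Subgroup Q} {z : Q} {k : ℕ}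
  {H : HypC B a b eps D z k} {S R Pos : Type} [DecidableEq S] [Fintype R] [Fintype Pos] {P : Puz S R} {g : S → Q}
  {mp : Pos → Q} {q₀ : ℕ} {lb : R → {t : B.L // eps (B.q t) = 1}} {po : R → Pos} {lv : R → ZMod (2 * k)}

/-- The inverse rotation. -/
def ivL (t : {t : B.L // eps (B.q t) = 1}) : {t : B.L // eps (B.q t) = 1} :=
  ⟨B.inv t.1, by rw [B.q_inv, map_inv, t.2, inv_one]⟩

theorem q_ivL (t : {t : B.L // eps (B.q t) = 1}) : B.q (ivL t).1 = (B.q t.1)⁻¹ := B.q_inv _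

variable (L : Lab H P g mp q₀ lb po lv)

include L

theorem Lab.posOf {m : Q} (hm : m ∈ mZ B a b D z k) : ∃ p, mp p = m := by
  have h1 := L.cnt m hm
  have h2 : 0 < {p | mp p = m}.ncard := by rw [h1]; exact L.pos
  exact (Set.ncard_pos (Set.toFinite _)).1 h2

theorem Lab.rung (t : {t : B.L // eps (B.q t) = 1}) (p : Pos) (n : ZMod (2 * k)) (v : S) :
    ∃ r, lb r = t ∧ po r = p ∧ lv r = n ∧ P.x r = v := (L.bij t p n v).exists

theorem Lab.ext {r r' : R} (h1 : lb r = lb r') (h2 : po r = po r') (h3 : lv r = lv r') (h4 : P.x r = P.x r') :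
    r = r' := (L.bij (lb r') (po r') (lv r') (P.x r')).unique ⟨h1, h2, h3, h4⟩ ⟨rfl, rfl, rfl, rfl⟩

/-- The second end. -/
theorem Lab.rung' (t : {t : B.L // eps (B.q t) = 1}) (p : Pos) (n : ZMod (2 * k)) (v : S) :
    ∃ r, lb r = t ∧ po r = p ∧ lv r = n ∧ P.y r = v := by
  obtain ⟨r', h1, h2, h3, h4⟩ := L.rung (ivL t) p n v
  obtain ⟨r, h5, h6, h7, h8⟩ := L.rung t p n (P.y r')
  refine ⟨r, h5, h6, h7, L.inj ?_⟩
  rw [L.val, h5, h6, h7, h8, L.val, h1, h2, h3, h4, q_ivL, vl_inv, inv_mul_cancel_right]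

theorem Lab.ext' {r r' : R} (h1 : lb r = lb r') (h2 : po r = po r') (h3 : lv r = lv r') (h4 : P.y r = P.y r') :
    r = r' := by
  refine L.ext h1 h2 h3 (L.inj ?_)
  have h5 := L.val r
  rw [h4, L.val r', h1, h2, h3] at h5
  exact (mul_right_cancel h5).symm

theorem Lab.card_xy (t : {t : B.L // eps (B.q t) = 1}) (v u : S) :
    {r | lb r = t ∧ P.x r = v ∧ P.y r = u}.ncard = cP B a b k mp (B.q t.1) ((g v)⁻¹ * g u) := by
  unfold cP
  rw [← Set.ncard_image_of_injOn (f := fun r => (po r, lv r)) (s := {r | lb r = t ∧ P.x r = v ∧ P.y r = u})]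
  · congr 1
    ext ⟨p, n⟩
    constructor
    · rintro ⟨r, ⟨rfl, rfl, rfl⟩, h⟩
      have h1 : po r = p := congrArg Prod.fst h
      have h2 : lv r = n := congrArg Prod.snd h
      show vl B a b (B.q (lb r).1) (mp p) n.val = _
      rw [L.val, inv_mul_cancel_left, h1, h2]
    · intro h
      have h : vl B a b (B.q t.1) (mp p) n.val = (g v)⁻¹ * g u := h
      obtain ⟨r, h1, h2, h3, h4⟩ := L.rung t p n v
      refine ⟨r, ⟨h1, h4, L.inj ?_⟩, Prod.ext h2 h3⟩
      rw [L.val, h1, h2, h3, h4, h, mul_inv_cancel_left]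
  · rintro r ⟨h1, h2, h3⟩ r' ⟨h1', h2', h3'⟩ h
    exact L.ext (h1.trans h1'.symm) (congrArg Prod.fst h) (congrArg Prod.snd h) (h2.trans h2'.symm)

theorem Lab.card_x (t : {t : B.L // eps (B.q t) = 1}) (v : S) : {r | lb r = t ∧ P.x r = v}.ncard = eL Pos k := by
  have hk := H.kpos
  have : NeZero (2 * k) := ⟨by omega⟩
  rw [← Set.ncard_image_of_injOn (f := fun r => (po r, lv r)) (s := {r | lb r = t ∧ P.x r = v})]
  · have h1 : (fun r => (po r, lv r)) '' {r | lb r = t ∧ P.x r = v} = Set.univ := by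
      rw [Set.eq_univ_iff_forall]
      rintro ⟨p, n⟩
      obtain ⟨r, h1, h2, h3, h4⟩ := L.rung t p n v
      exact ⟨r, ⟨h1, h4⟩, Prod.ext h2 h3⟩
    rw [h1, Set.ncard_univ, Nat.card_eq_fintype_card, Fintype.card_prod, ZMod.card]
    rfl
  · rintro r ⟨h1, h2⟩ r' ⟨h1', h2'⟩ h
    exact L.ext (h1.trans h1'.symm) (congrArg Prod.fst h) (congrArg Prod.snd h) (h2.trans h2'.symm)

theorem Lab.card_y (t : {t : B.L // eps (B.q t) = 1}) (v : S) : {r | lb r = t ∧ P.y r = v}.ncard = eL Pos k := by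
  have hk := H.kpos
  have : NeZero (2 * k) := ⟨by omega⟩
  rw [← Set.ncard_image_of_injOn (f := fun r => (po r, lv r)) (s := {r | lb r = t ∧ P.y r = v})]
  · have h1 : (fun r => (po r, lv r)) '' {r | lb r = t ∧ P.y r = v} = Set.univ := by
      rw [Set.eq_univ_iff_forall]
      rintro ⟨p, n⟩
      obtain ⟨r, h1, h2, h3, h4⟩ := L.rung' t p n v
      exact ⟨r, ⟨h1, h4⟩, Prod.ext h2 h3⟩
    rw [h1, Set.ncard_univ, Nat.card_eq_fintype_card, Fintype.card_prod, ZMod.card]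
    rfl
  · rintro r ⟨h1, h2⟩ r' ⟨h1', h2'⟩ h
    exact L.ext' (h1.trans h1'.symm) (congrArg Prod.fst h) (congrArg Prod.snd h) (h2.trans h2'.symm)

omit L [Fintype Pos] [Fintype R] in
theorem on_split {r : R} {v u : S} : (P.On r v ∧ P.oth r v = u) ↔ (P.x r = v ∧ P.y r = u) ∨ (P.x r = u ∧ P.y r = v) := by
  constructor
  · rintro ⟨h | h, rfl⟩
    · subst h; rw [oth_x]; exact Or.inl ⟨rfl, rfl⟩
    · subst h; rw [oth_y]; exact Or.inr ⟨rfl, rfl⟩
  · rintro (⟨rfl, rfl⟩ | ⟨rfl, rfl⟩)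
    · exact ⟨on_x r, oth_x r⟩
    · exact ⟨on_y r, oth_y r⟩

/-- The number of rungs of one rotation at a strand. -/
theorem Lab.deg (t : {t : B.L // eps (B.q t) = 1}) (v : S) : {r | lb r = t ∧ P.On r v}.ncard = 2 * eL Pos k := by
  have h1 : {r | lb r = t ∧ P.On r v} = {r | lb r = t ∧ P.x r = v} ∪ {r | lb r = t ∧ P.y r = v} := by
    ext r
    constructor
    · rintro ⟨h1, h2 | h2⟩
      · exact Or.inl ⟨h1, h2.symm⟩
      · exact Or.inr ⟨h1, h2.symm⟩
    · rintro (⟨h1, h2⟩ | ⟨h1, h2⟩)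
      · exact ⟨h1, Or.inl h2.symm⟩
      · exact ⟨h1, Or.inr h2.symm⟩
  rw [h1, Set.ncard_union_eq ?_ (Set.toFinite _) (Set.toFinite _), L.card_x, L.card_y]
  · ring
  · rw [Set.disjoint_left]
    rintro r ⟨_, h2⟩ ⟨_, h3⟩
    exact P.ne r (h2.trans h3.symm)

/-- The number of parallel rungs of one rotation. -/
theorem Lab.cpar (t : {t : B.L // eps (B.q t) = 1}) (v u : S) :
    {r | lb r = t ∧ P.On r v ∧ P.oth r v = u}.ncard =
      cP B a b k mp (B.q t.1) ((g v)⁻¹ * g u) + cP B a b k mp (B.q t.1) ((g v)⁻¹ * g u)⁻¹ := by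
  have h1 : {r | lb r = t ∧ P.On r v ∧ P.oth r v = u} =
      {r | lb r = t ∧ P.x r = v ∧ P.y r = u} ∪ {r | lb r = t ∧ P.x r = u ∧ P.y r = v} := by
    ext r
    simp only [Set.mem_ofPred_eq, Set.mem_union, on_split]
    tauto
  rw [h1, Set.ncard_union_eq ?_ (Set.toFinite _) (Set.toFinite _), L.card_xy, L.card_xy, mul_inv_rev, inv_inv]
  rw [Set.disjoint_left]
  rintro r ⟨_, h2, h3⟩ ⟨_, h4, h5⟩
  exact P.ne r (h2.trans h5.symm)

/-! ### The components of one rotation -/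

omit L [Fintype Pos] [Fintype R] in
/-- Joined by a rung of the rotation `t`. -/
def Jt (P : Puz S R) (lb : R → {t : B.L // eps (B.q t) = 1}) (t : {t : B.L // eps (B.q t) = 1}) (v w : S) : Prop :=
  ∃ r, lb r = t ∧ P.On r v ∧ P.On r w

omit L [Fintype Pos] [Fintype R] in
/-- The component of `v`. -/
def cmp (P : Puz S R) (lb : R → {t : B.L // eps (B.q t) = 1}) (t : {t : B.L // eps (B.q t) = 1}) (v : S) : Set S :=
  {w | Relation.ReflTransGen (Jt P lb t) v w}

omit L [Fintype Pos] [Fintype R] in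
theorem cmp_symm {t : {t : B.L // eps (B.q t) = 1}} {v w : S} (h : w ∈ cmp P lb t v) : v ∈ cmp P lb t w := by
  induction (h : Relation.ReflTransGen (Jt P lb t) v w) with
  | refl => exact Relation.ReflTransGen.refl
  | tail _ hs ih =>
    obtain ⟨r, h1, h2, h3⟩ := hs
    exact Relation.ReflTransGen.head ⟨r, h1, h3, h2⟩ ih

omit L [Fintype Pos] [Fintype R] in
theorem cmp_eq {t : {t : B.L // eps (B.q t) = 1}} {v w : S} (h : w ∈ cmp P lb t v) : cmp P lb t w = cmp P lb t v := by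
  ext u
  exact ⟨fun h' => Relation.ReflTransGen.trans h h', fun h' => Relation.ReflTransGen.trans (cmp_symm h) h'⟩

omit L [Fintype Pos] [Fintype R] in
theorem cmp_self {t : {t : B.L // eps (B.q t) = 1}} (v : S) : v ∈ cmp P lb t v := Relation.ReflTransGen.refl

omit L [Fintype Pos] [Fintype R] in
theorem cmp_on {r : R} {v w : S} (hv : P.On r v) (hw : P.On r w) : cmp P lb (lb r) w = cmp P lb (lb r) v :=
  cmp_eq (Relation.ReflTransGen.single ⟨r, rfl, hv, hw⟩)

omit L [Fintype Pos] [Fintype R] in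
/-- The families. -/
def fm (P : Puz S R) (lb : R → {t : B.L // eps (B.q t) = 1}) (r : R) : {t : B.L // eps (B.q t) = 1} × Set S :=
  (lb r, cmp P lb (lb r) (P.x r))

omit L [Fintype Pos] [Fintype R] in
theorem fm_on {r : R} {v : S} (hv : P.On r v) : fm P lb r = (lb r, cmp P lb (lb r) v) := by
  unfold fm
  rw [cmp_on hv (on_x r)]

omit L [Fintype Pos] [Fintype R] in
theorem fm_iff {r : R} {v : S} (hv : P.On r v) (i : {t : B.L // eps (B.q t) = 1} × Set S) :
    fm P lb r = i ↔ lb r = i.1 ∧ i.2 = cmp P lb i.1 v := by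
  rw [fm_on hv]
  constructor
  · rintro rfl
    exact ⟨rfl, rfl⟩
  · rintro ⟨h1, h2⟩
    exact Prod.ext h1 (by rw [h2, ← h1])

theorem Lab.fon (i : {t : B.L // eps (B.q t) = 1} × Set S) (v : S) :
    FOn P (fm P lb) i v ↔ i.2 = cmp P lb i.1 v := by
  constructor
  · rintro ⟨r, h1, h2⟩
    exact ((fm_iff h2 i).1 h1).2
  · intro h
    obtain ⟨p, _⟩ := L.posOf (Subgroup.one_mem _)
    obtain ⟨r, h1, _, _, h4⟩ := L.rung i.1 p 0 v
    have h5 : P.On r v := Or.inl h4.symm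
    exact ⟨r, (fm_iff h5 i).2 ⟨h1, h⟩, h5⟩

omit L [Fintype Pos] [Fintype R] in
theorem fset {i : {t : B.L // eps (B.q t) = 1} × Set S} {v : S} (hv : i.2 = cmp P lb i.1 v) (X : R → Prop) :
    {r | fm P lb r = i ∧ P.On r v ∧ X r} = {r | lb r = i.1 ∧ P.On r v ∧ X r} := by
  ext r
  constructor
  · rintro ⟨h1, h2, h3⟩
    exact ⟨((fm_iff h2 i).1 h1).1, h2, h3⟩
  · rintro ⟨h1, h2, h3⟩
    exact ⟨(fm_iff h2 i).2 ⟨h1, hv⟩, h2, h3⟩

omit L [Fintype Pos] [Fintype R] in
theorem fset' {i : {t : B.L // eps (B.q t) = 1} × Set S} {v : S} (hv : i.2 = cmp P lb i.1 v) :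
    {r | fm P lb r = i ∧ P.On r v} = {r | lb r = i.1 ∧ P.On r v} := by
  have h1 := fset (P := P) (lb := lb) hv fun _ => True
  simpa only [and_true] using h1

theorem Lab.fm_tau (r : R) : fm P lb (P.tau r) = fm P lb r := by
  have h1 : P.x (P.tau r) ∈ cmp P lb (lb r) (P.x r) := by
    refine L.clo (lb r) (fun w => w ∈ cmp P lb (lb r) (P.x r)) ?_ r rfl (cmp_self _)
    intro r' hr'
    constructor
    · exact fun h => Relation.ReflTransGen.tail h ⟨r', hr', on_x r', on_y r'⟩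
    · exact fun h => Relation.ReflTransGen.tail h ⟨r', hr', on_y r', on_x r'⟩
  unfold fm
  rw [L.tau, cmp_eq h1]

theorem Lab.e_eq : eL Pos k = 2 * (q₀ * tt B a b D z k) := card_pos H L.mpZ L.cnt

theorem Lab.cpar' (t : {t : B.L // eps (B.q t) = 1}) (v u : S) :
    {r | lb r = t ∧ P.On r v ∧ P.oth r v = u}.ncard =
      q₀ * ((cn B a b D z k (B.q t.1) ((g v)⁻¹ * g u) +
          cn B a b D z k (B.q a * B.q t.1 * (B.q a)⁻¹) ((g v)⁻¹ * g u)) +
        (cn B a b D z k (B.q t.1) ((g v)⁻¹ * g u)⁻¹ +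
          cn B a b D z k (B.q a * B.q t.1 * (B.q a)⁻¹) ((g v)⁻¹ * g u)⁻¹)) := by
  rw [L.cpar, cP_eq H L.mpZ L.cnt, cP_eq H L.mpZ L.cnt]
  ring

omit L [Fintype Pos] [Fintype R] in
/-- All values of `t` are the involution `q`. -/
def Cst (_H : HypC B a b eps D z k) (t q : Q) : Prop :=
  q * q = 1 ∧ cn B a b D z k t q = tt B a b D z k ∧ cn B a b D z k (B.q a * t * (B.q a)⁻¹) q = tt B a b D z k

theorem Lab.cst_val {r : R} {q : Q} (h : Cst H (B.q (lb r).1) q) : g (P.y r) = g (P.x r) * q := by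
  rw [L.val]
  congr 1
  have hk := H.kpos
  have : NeZero (2 * k) := ⟨by omega⟩
  have hlt : (lv r).val < 2 * k := ZMod.val_lt _
  rcases Nat.even_or_odd' (lv r).val with ⟨j, hj | hj⟩
  · rw [hj, vl_even]
    exact all_of_eq H h.2.1 _ ⟨L.mpZ _, show j < k by omega⟩
  · rw [hj, vl_odd]
    exact all_of_eq H h.2.2 _ ⟨L.mpZ _, show j < k by omega⟩

theorem Lab.cst_on {r : R} {q : Q} (h : Cst H (B.q (lb r).1) q) {v : S} (hv : P.On r v) :
    g (P.oth r v) = g v * q := by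
  have h1 := L.cst_val h
  rcases hv with rfl | rfl
  · rw [oth_x, h1]
  · rw [oth_y, h1, mul_assoc, h.1, mul_one]

theorem Lab.ftwo_of_cst {i : {t : B.L // eps (B.q t) = 1} × Set S} {q : Q} (h : Cst H (B.q i.1.1) q) :
    FTwo P (fm P lb) i := by
  intro r r' v h1 h2 hv
  obtain ⟨e1, e2⟩ := (fm_iff hv i).1 h1
  obtain ⟨e3, e4⟩ := (fm_iff (on_x r') i).1 h2
  have h3 : Cst H (B.q (lb r).1) q := by rw [e1]; exact h
  have h4 : Cst H (B.q (lb r').1) q := by rw [e3]; exact h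
  have key : ∀ w, w ∈ cmp P lb i.1 v → w = v ∨ g w = g v * q := by
    intro w hw
    induction (hw : Relation.ReflTransGen (Jt P lb i.1) v w) with
    | refl => exact Or.inl rfl
    | @tail b' c' _ hs ih =>
      obtain ⟨r'', h5, h6, h7⟩ := hs
      have h8 : Cst H (B.q (lb r'').1) q := by rw [h5]; exact h
      rcases (on_iff_oth h6).1 h7 with h9 | h9
      · rw [h9]; exact ih
      · have h10 := L.cst_on h8 h6
        rw [← h9] at h10
        rcases ih with h11 | h11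
        · right; rw [h10, h11]
        · left
          apply L.inj
          rw [h10, h11, mul_assoc, h.1, mul_one]
  have hon : P.On r' v := by
    have h5 : P.x r' ∈ cmp P lb i.1 v := by
      rw [← e2, e4]; exact cmp_self _
    rcases key _ h5 with h6 | h6
    · exact Or.inl h6.symm
    · right
      apply L.inj
      rw [L.cst_val h4, h6, mul_assoc, h.1, mul_one]
  refine ⟨hon, L.inj ?_⟩
  rw [L.cst_on h4 hon, L.cst_on h3 hv]

/-- Not more than half of the rungs are parallel, or all. -/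
theorem Lab.par' (i : {t : B.L // eps (B.q t) = 1} × Set S) :
    FPar P (fm P lb) (fun _ => eL Pos k) i ∨ FTwo P (fm P lb) i := by
  by_cases hp : FPar P (fm P lb) (fun _ => eL Pos k) i
  · exact Or.inl hp
  right
  unfold FPar at hp
  push Not at hp
  obtain ⟨v, u, h1⟩ := hp
  have hv : i.2 = cmp P lb i.1 v := by
    have h2 : 0 < {r | fm P lb r = i ∧ P.On r v ∧ P.oth r v = u}.ncard := lt_of_le_of_lt (Nat.zero_le _) h1
    obtain ⟨r, h3, h4, _⟩ := (Set.ncard_pos (Set.toFinite _)).1 h2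
    exact ((fm_iff h4 i).1 h3).2
  rw [fset hv fun r => P.oth r v = u, L.cpar', L.e_eq] at h1
  set q : Q := (g v)⁻¹ * g u with hq
  have hq₀ := L.pos
  have ht := eps_ca H i.1.2
  by_cases hqq : q = q⁻¹
  · have h2 : tt B a b D z k <
        cn B a b D z k (B.q i.1.1) q + cn B a b D z k (B.q a * B.q i.1.1 * (B.q a)⁻¹) q := by
      rw [← hqq] at h1
      by_contra h3
      push Not at h3
      have h4 := Nat.mul_le_mul_left q₀ h3
      nlinarith
    obtain ⟨h3, h4⟩ := g1 H i.1.2 ht h2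
    exact L.ftwo_of_cst (q := q) ⟨by rw [mul_eq_one_iff_eq_inv]; exact hqq, h3, h4⟩
  · exfalso
    have h2 := cn_add_le H (B.q i.1.1) hqq
    have h3 := cn_add_le H (B.q a * B.q i.1.1 * (B.q a)⁻¹) hqq
    have h4 := Nat.mul_le_mul_left q₀ (Nat.add_le_add h2 h3)
    nlinarith

/-- The families. -/
theorem Lab.fams : Fams P (fm P lb) (fun _ => eL Pos k) where
  tau := L.fm_tau
  deg := fun i v hv => by rw [fset' ((L.fon i v).1 hv), L.deg]
  conn := by
    intro i v w hv hw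
    have hv := (L.fon i v).1 hv
    have hw := (L.fon i w).1 hw
    have h1 : w ∈ cmp P lb i.1 v := by rw [← hv, hw]; exact cmp_self _
    have key : ∀ w, Relation.ReflTransGen (Jt P lb i.1) v w →
        Relation.ReflTransGen (fun a b => ∃ r, fm P lb r = i ∧ P.On r a ∧ P.On r b) v w := by
      intro w hw
      induction hw with
      | refl => exact Relation.ReflTransGen.refl
      | @tail b' c' hb hs ih =>
        obtain ⟨r, h2, h3, h4⟩ := hs
        refine ih.tail ⟨r, (fm_iff h3 i).2 ⟨h2, ?_⟩, h3, h4⟩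
        rw [hv]
        exact (cmp_eq hb).symm
    exact key w h1
  par := L.par'

/-! ### Values -/

omit L [Fintype Pos] [Fintype R] in
theorem eps_SI {x : Q} (h : x ∈ SI B a b eps D z k) : eps x = 1 := by
  obtain ⟨m, _, n, t, ht, rfl⟩ := h
  rw [map_mul, map_mul, ht, mul_one, map_inv, mul_inv_cancel]

/-- The values are in `SI`. -/
theorem Lab.dirSI {r : R} {v : S} (hv : P.On r v) : (g v)⁻¹ * g (P.oth r v) ∈ SI B a b eps D z k := by
  rcases hv with rfl | rfl
  · rw [oth_x, L.val, inv_mul_cancel_left]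
    exact ⟨_, L.mpZ _, _, _, (lb r).2, rfl⟩
  · rw [oth_y, L.val, mul_inv_rev, inv_mul_cancel_right, ← vl_inv, ← q_ivL]
    exact ⟨_, L.mpZ _, _, _, (ivL (lb r)).2, rfl⟩

/-- The two kinds of families in mode U. -/
theorem Lab.kinds {K : R → Prop} {u : S → S} (hU : ModeU P (fm P lb) (fun _ => eL Pos k) K u)
    (t : {t : B.L // eps (B.q t) = 1}) (v : S) :
    ((cn B a b D z k (B.q t.1) ((g v)⁻¹ * g (u v)) +
          cn B a b D z k (B.q a * B.q t.1 * (B.q a)⁻¹) ((g v)⁻¹ * g (u v))) +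
        (cn B a b D z k (B.q t.1) ((g v)⁻¹ * g (u v))⁻¹ +
          cn B a b D z k (B.q a * B.q t.1 * (B.q a)⁻¹) ((g v)⁻¹ * g (u v))⁻¹) = 2 * tt B a b D z k ∧
      ¬ FTwo P (fm P lb) (t, cmp P lb t v)) ∨
    (Cst H (B.q t.1) ((g v)⁻¹ * g (u v)) ∧ FTwo P (fm P lb) (t, cmp P lb t v)) := by
  have hq₀ := L.pos
  have hon : FOn P (fm P lb) (t, cmp P lb t v) v := (L.fon _ _).2 rfl
  by_cases hF : FTwo P (fm P lb) (t, cmp P lb t v)
  · right
    refine ⟨?_, hF⟩
    have h1 : {r | lb r = t ∧ P.On r v ∧ P.oth r v = u v} = {r | lb r = t ∧ P.On r v} := by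
      ext r
      constructor
      · rintro ⟨h1, h2, _⟩
        exact ⟨h1, h2⟩
      · rintro ⟨h1, h2⟩
        refine ⟨h1, h2, hU.two r v ?_ h2⟩
        rw [(fm_iff h2 (t, cmp P lb t v)).2 ⟨h1, rfl⟩]
        exact hF
    have h2 := L.cpar' t v (u v)
    rw [h1, L.deg, L.e_eq] at h2
    set q : Q := (g v)⁻¹ * g (u v) with hq
    have hT := tt_pos H
    have h3 : cn B a b D z k (B.q t.1) q + cn B a b D z k (B.q a * B.q t.1 * (B.q a)⁻¹) q +
        (cn B a b D z k (B.q t.1) q⁻¹ + cn B a b D z k (B.q a * B.q t.1 * (B.q a)⁻¹) q⁻¹) =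
          4 * tt B a b D z k := by
      have h4 : q₀ * (cn B a b D z k (B.q t.1) q + cn B a b D z k (B.q a * B.q t.1 * (B.q a)⁻¹) q +
        (cn B a b D z k (B.q t.1) q⁻¹ + cn B a b D z k (B.q a * B.q t.1 * (B.q a)⁻¹) q⁻¹)) =
          q₀ * (4 * tt B a b D z k) := by
        rw [← h2]; ring
      exact Nat.eq_of_mul_eq_mul_left hq₀ h4
    have c1 := cn_le H (B.q t.1) q
    have c2 := cn_le H (B.q t.1) q⁻¹
    have c3 := cn_le H (B.q a * B.q t.1 * (B.q a)⁻¹) q
    have c4 := cn_le H (B.q a * B.q t.1 * (B.q a)⁻¹) q⁻¹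
    by_cases hqq : q = q⁻¹
    · exact ⟨by rw [mul_eq_one_iff_eq_inv]; exact hqq, by omega, by omega⟩
    · exfalso
      have c5 := cn_add_le H (B.q t.1) hqq
      omega
  · left
    refine ⟨?_, hF⟩
    have h1 := hU.half _ v hF hon
    rw [fset (P := P) (lb := lb) (i := (t, cmp P lb t v)) (v := v) rfl fun r => P.oth r v = u v, L.cpar', L.e_eq] at h1
    refine Nat.eq_of_mul_eq_mul_left hq₀ ?_
    rw [h1]
    ring

/-- MODE U: no family has two strands, and every strand has two directions. -/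
theorem Lab.modeU (hE : ∀ s, ¬ EffL B a b eps D z k s) {K : R → Prop} {u : S → S}
    (hU : ModeU P (fm P lb) (fun _ => eL Pos k) K u)
    (hne : ∀ v : S, ∃ r r' : R, P.On r v ∧ P.On r' v ∧ P.oth r v ≠ P.oth r' v) :
    (∀ r, ¬ FTwo P (fm P lb) (fm P lb r)) ∧
      ∀ r r' v, ¬ K r → ¬ K r' → P.On r v → P.On r' v → P.oth r v = P.oth r' v := by
  have hT := tt_pos H
  -- at one strand
  have key : ∀ v : S, (∀ t : {t : B.L // eps (B.q t) = 1}, ¬ FTwo P (fm P lb) (t, cmp P lb t v)) ∧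
      ∃ q₁ : Q, ∀ r, P.On r v → P.oth r v ≠ u v → (g v)⁻¹ * g (P.oth r v) = q₁ := by
    intro v
    set q : Q := (g v)⁻¹ * g (u v) with hq
    have heps : eps q = 1 := by
      obtain ⟨r, h1, h2⟩ := hU.touch v
      have h3 := L.dirSI h2
      rw [hU.dir r v h1 h2] at h3
      exact eps_SI h3
    have hdir : ∀ r, P.On r v → P.oth r v ≠ u v → (g v)⁻¹ * g (P.oth r v) ≠ q := by
      intro r _ h1 h2
      exact h1 (L.inj (mul_left_cancel h2))
    by_cases hqq : q = q⁻¹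
    · -- an involution
      have hall : ∀ t : B.L, eps (B.q t) = 1 →
          cn B a b D z k (B.q t) q + cn B a b D z k (B.q a * B.q t * (B.q a)⁻¹) q = tt B a b D z k ∨
          (cn B a b D z k (B.q t) q = tt B a b D z k ∧
            cn B a b D z k (B.q a * B.q t * (B.q a)⁻¹) q = tt B a b D z k) := by
        intro t ht
        rcases L.kinds hU ⟨t, ht⟩ v with ⟨h1, _⟩ | ⟨h1, _⟩
        · rw [← hq, ← hqq] at h1
          dsimp only at h1
          left
          omega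
        · exact Or.inr h1.2
      obtain ⟨q₁, h1⟩ := two_values H hE heps hall
      refine ⟨?_, q₁, fun r h2 h3 => (h1 _ (L.dirSI h2)).resolve_left (hdir r h2 h3)⟩
      intro t hF
      have hC : Cst H (B.q t.1) q := by
        rcases L.kinds hU t v with ⟨_, h2⟩ | ⟨h2, _⟩
        · exact absurd hF h2
        · exact h2
      -- another direction
      obtain ⟨r, r', h2, h3, h4⟩ := hne v
      have h5 : ∃ r, P.On r v ∧ P.oth r v ≠ u v := by
        by_cases h6 : P.oth r v = u v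
        · exact ⟨r', h3, fun h7 => h4 (h6.trans h7.symm)⟩
        · exact ⟨r, h2, h6⟩
      obtain ⟨r, h2, h3⟩ := h5
      rcases L.kinds hU (lb r) v with ⟨h6, _⟩ | ⟨h6, _⟩
      · rw [← hq, ← hqq] at h6
        exact no_mix H (t := (lb r).1) (t' := t.1) t.2 (by omega) hC.2
      · refine hdir r h2 h3 ?_
        rw [L.cst_on h6 h2, inv_mul_cancel_left]
    · -- not an involution
      have hk : ∀ t : {t : B.L // eps (B.q t) = 1},
          (cn B a b D z k (B.q t.1) q + cn B a b D z k (B.q t.1) q⁻¹ = tt B a b D z k ∧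
            cn B a b D z k (B.q a * B.q t.1 * (B.q a)⁻¹) q +
              cn B a b D z k (B.q a * B.q t.1 * (B.q a)⁻¹) q⁻¹ = tt B a b D z k) ∧
          ¬ FTwo P (fm P lb) (t, cmp P lb t v) := by
        intro t
        rcases L.kinds hU t v with ⟨h1, h2⟩ | ⟨h1, _⟩
        · rw [← hq] at h1
          have c1 := cn_add_le H (B.q t.1) hqq
          have c2 := cn_add_le H (B.q a * B.q t.1 * (B.q a)⁻¹) hqq
          exact ⟨⟨by omega, by omega⟩, h2⟩
        · exact absurd (mul_eq_one_iff_eq_inv.1 h1.1) hqq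
      refine ⟨fun t => (hk t).2, q⁻¹, fun r h2 h3 => ?_⟩
      have h4 := hdir r h2 h3
      obtain ⟨m, hm, j, t, ht, h5⟩ := SI_cases (L.dirSI h2)
      have hjk : (m, j % k) ∈ Po B a b D z k := ⟨hm, Nat.mod_lt _ H.kpos⟩
      rcases h5 with h5 | h5
      · rw [cj_mod H ht] at h5
        rw [h5] at h4 ⊢
        exact (all_of_eq2 H hqq (hk ⟨t, ht⟩).1.1 _ hjk).resolve_left h4
      · rw [cj_mod H (eps_ca H ht)] at h5
        rw [h5] at h4 ⊢
        exact (all_of_eq2 H hqq (hk ⟨t, ht⟩).1.2 _ hjk).resolve_left h4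
  refine ⟨fun r => (key (P.x r)).1 (lb r), ?_⟩
  intro r r' v h1 h2 h3 h4
  obtain ⟨h5, q₁, h6⟩ := key v
  have h7 : ∀ r, ¬ K r → P.On r v → P.oth r v ≠ u v := by
    intro r h8 h9 h10
    refine h8 ((hU.mem r v ?_ h9).2 h10)
    rw [fm_on h9]
    exact h5 (lb r)
  apply L.inj
  exact mul_left_cancel ((h6 r h3 (h7 r h1 h3)).trans (h6 r' h4 (h7 r' h2 h4)).symm)

/-! ### Automorphisms -/

/-- Every element of `SI` occurs at every strand. -/
theorem Lab.move (v : S) {x : Q} (hx : x ∈ SI B a b eps D z k) : ∃ r, P.x r = v ∧ g (P.y r) = g v * x := by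
  obtain ⟨m, hm, n, t, ht, rfl⟩ := hx
  obtain ⟨p, rfl⟩ := L.posOf hm
  have hk := H.kpos
  have : NeZero (2 * k) := ⟨by omega⟩
  obtain ⟨r, h1, h2, h3, h4⟩ := L.rung ⟨t, ht⟩ p (n : ZMod (2 * k)) v
  refine ⟨r, h4, ?_⟩
  rw [L.val, h1, h2, h3, h4]
  congr 1
  rw [ZMod.val_natCast]
  show vl B a b (B.q t) (mp p) (n % (2 * k)) = vl B a b (B.q t) (mp p) n
  -- the same parity
  rcases Nat.even_or_odd' n with ⟨j, rfl | rfl⟩
  · rw [Nat.mul_mod_mul_left, vl_even, vl_even, cj_mod H ht (mp p) j]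
  · have e1 : (2 * j + 1) % (2 * k) = 2 * (j % k) + 1 := by
      have h5 : (2 * j + 1) = 2 * (j % k) + 1 + 2 * k * (j / k) := by
        have h6 := Nat.mod_add_div j k
        calc 2 * j + 1 = 2 * (j % k + k * (j / k)) + 1 := by rw [h6]
          _ = _ := by ring
      rw [h5, Nat.add_mul_mod_self_left, Nat.mod_eq_of_lt]
      have := Nat.mod_lt j hk
      omega
    rw [e1, vl_odd, vl_odd, cj_mod H (eps_ca H ht) (mp p) j]

theorem Lab.nb {v w : S} : SQ2.V.AvoidOf.N P v w ↔ ∃ x ∈ SI B a b eps D z k, g w = g v * x := by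
  constructor
  · intro h
    obtain ⟨r, h1, h2⟩ := SQ2.V.AvoidOf.rung_of_N h
    refine ⟨_, L.dirSI h1, ?_⟩
    rw [mul_inv_cancel_left, h2]
  · rintro ⟨x, hx, h⟩
    obtain ⟨r, h1, h2⟩ := L.move v hx
    have h3 : P.y r = w := L.inj (h2.trans h.symm)
    exact ⟨r, Or.inl ⟨h1, h3⟩⟩

/-- The left multiplication by the quotient of two neighbours. -/
theorem Lab.trans {s s' : S} {δ : Q} (h : g s' = δ * g s) (v : S) : ∃ w, g w = δ * g v := by
  have key : ∀ v, Relation.ReflTransGen (fun a b => ∃ r, P.On r a ∧ P.On r b) s v → ∃ w, g w = δ * g v := by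
    intro v hv
    induction hv with
    | refl => exact ⟨s', h⟩
    | @tail b' c' _ hs ih =>
      obtain ⟨r, h1, h2⟩ := hs
      rcases (on_iff_oth h1).1 h2 with h3 | h3
      · rw [h3]; exact ih
      · obtain ⟨w, hw⟩ := ih
        obtain ⟨r', h4, h5⟩ := L.move w (L.dirSI h1)
        refine ⟨P.y r', ?_⟩
        rw [h5, hw, h3, mul_assoc, mul_inv_cancel_left]
  exact key v (L.conn s v)

theorem Lab.free [Finite S] : FreeNb P := by
  intro s
  -- a neighbour
  obtain ⟨p, _⟩ := L.posOf (Subgroup.one_mem _)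
  obtain ⟨t₀, ht₀⟩ := H.rot
  obtain ⟨r, _, _, _, h1⟩ := L.rung ⟨t₀, ht₀⟩ p 0 s
  set δ : Q := g (P.y r) * (g s)⁻¹ with hδ
  have h2 : g (P.y r) = δ * g s := by rw [hδ, inv_mul_cancel_right]
  have hδ1 : δ ≠ 1 := by
    intro h3
    rw [h3, one_mul] at h2
    exact P.ne r (h1.trans (L.inj h2).symm)
  choose f hf using L.trans h2
  have hinj : Function.Injective f := by
    intro v w h3
    have h4 := hf v
    rw [h3, hf w] at h4
    exact (L.inj (mul_left_cancel h4)).symm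
  have hN : ∀ v w, SQ2.V.AvoidOf.N P (f v) (f w) ↔ SQ2.V.AvoidOf.N P v w := by
    intro v w
    rw [L.nb, L.nb, hf, hf]
    constructor
    · rintro ⟨x, hx, h3⟩
      exact ⟨x, hx, mul_left_cancel (h3.trans (mul_assoc _ _ _))⟩
    · rintro ⟨x, hx, h3⟩
      exact ⟨x, hx, by rw [h3]; exact (mul_assoc _ _ _).symm⟩
  refine ⟨Equiv.ofBijective f (Finite.injective_iff_bijective.1 hinj), hN, ?_, ?_⟩
  · intro v hv
    have h3 : f v = v := hv
    have h4 := hf v
    rw [h3] at h4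
    exact hδ1 (mul_eq_right.1 h4.symm)
  · show SQ2.V.AvoidOf.N P s (f s)
    have h3 : f s = P.y r := L.inj ((hf s).trans h2.symm)
    rw [h3]
    exact ⟨r, Or.inl ⟨h1, rfl⟩⟩

theorem Lab.connS : P.ConnS := by
  have key : ∀ v w, Relation.ReflTransGen (fun a b => ∃ r, P.On r a ∧ P.On r b) v w → ∀ r r', P.On r v → P.On r' w →
      Relation.ReflTransGen (fun a b => ∃ v, P.On a v ∧ P.On b v) r r' := by
    intro v w h
    induction h with
    | refl => intro r r' h1 h2; exact Relation.ReflTransGen.single ⟨v, h1, h2⟩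
    | @tail b c _ hbc ih =>
      intro r r' h1 h2
      obtain ⟨q, hq1, hq2⟩ := hbc
      exact (ih r q h1 hq1).tail ⟨c, hq2, h2⟩
  intro r r'
  exact key _ _ (L.conn (P.x r) (P.x r')) r r' (Or.inl rfl) (Or.inl rfl)

end lab

section main

variable {Q : Type} [Group Q] {B : Lb.{0, 0} Q} {a b : B.L} {eps : Q →* ℤˣ} {D : Subgroup Q} {z : Q} {k : ℕ}
  {H : HypC B a b eps D z k} {S R Pos : Type} [Fintype S] [DecidableEq S] [Fintype R] [Fintype Pos] {P : Puz S R}
  {g : S → Q} {mp : Pos → Q} {q₀ : ℕ} {lb : R → {t : B.L // eps (B.q t) = 1}} {po : R → Pos} {lv : R → ZMod (2 * k)}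

/-- Every rung is in a good class. -/
theorem Lab.main (L : Lab H P g mp q₀ lb po lv) (hE : ∀ s, ¬ EffL B a b eps D z k s) (h3 : 3 ≤ Fintype.card S)
    (r : R) : ∃ K : R → Prop, K r ∧ P.HypK K := by
  have hCS := L.connS
  have hfree := L.free
  have hN := noCut_of_free hfree hCS
  have hT := twoN_of_free hfree hCS h3
  rcases scon_or_modeU L.fams h3 L.conn with h | ⟨K, u, hU, _, hst⟩
  · exact ⟨fun _ => True, trivial, SQ2.V.Puz.HypK.of_scon h hT hN hCS⟩
  · have hne : ∀ v : S, ∃ r r' : R, P.On r v ∧ P.On r' v ∧ P.oth r v ≠ P.oth r' v := by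
      intro v
      obtain ⟨r, _, hr⟩ := hU.touch v
      obtain ⟨r', h1, h2, h4⟩ := hT r v hr
      exact ⟨r, r', h1, h2, h4⟩
    obtain ⟨hno, h2⟩ := L.modeU hE hU hne
    obtain ⟨h4, h5⟩ := SQ4.KP.modeU_two L.fams L.conn hU hst hno h2 hT hN hCS
    by_cases hr : K r
    · exact ⟨K, hr, h4⟩
    · exact ⟨fun r => ¬ K r, hr, h5⟩

end main

end KP

end Pool.Agent.Lib.MP_688fd0_co.SQ4.CV
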